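import Pool.Agent.K6.H5.CC.Stm

set_option autoImplicit false

open Finset Matrix

namespace Pool.Agent.K6.H5.CC

namespace CNJ

theorem general {A : Type*} [NormedRing A] [NormedAlgebra ℝ A] [NormedAlgebra ℚ A]
    [CompleteSpace A] (Y K Z : A) (h : Y * K - K * Y = Z) (hc : Y * Z = Z * Y) :
    NormedSpace.exp Y * K * NormedSpace.exp (-Y) = K + Z := by
  set f : ℝ → A := fun t => NormedSpace.exp (t • Y) * K * NormedSpace.exp (t • (-Y)) - t • Z
    with hf
  have hd : ∀ t : ℝ, HasDerivAt f 0 t := by
    intro t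
    have h1 := hasDerivAt_exp_smul_const (𝕂 := ℝ) Y t
    have h2 := hasDerivAt_exp_smul_const' (𝕂 := ℝ) (-Y) t
    have h3 := ((h1.mul_const K).mul h2).sub ((hasDerivAt_id t).smul_const Z)
    have hcomm : NormedSpace.exp (t • Y) * Z = Z * NormedSpace.exp (t • Y) := by
      have : Commute (t • Y) Z := (show Commute Y Z from hc).smul_left t
      exact this.exp_left
    have hinv : NormedSpace.exp (t • Y) * NormedSpace.exp (t • (-Y)) = 1 := by
      rw [smul_neg, ← NormedSpace.exp_add_of_commute (Commute.neg_right (Commute.refl _))]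
      simp
    have h0 : NormedSpace.exp (t • Y) * Y * K * NormedSpace.exp (t • (-Y)) +
        NormedSpace.exp (t • Y) * K * (-Y * NormedSpace.exp (t • (-Y))) - (1 : ℝ) • Z = 0 := by
      have e1 : NormedSpace.exp (t • Y) * Y * K * NormedSpace.exp (t • (-Y)) +
          NormedSpace.exp (t • Y) * K * (-Y * NormedSpace.exp (t • (-Y))) =
          NormedSpace.exp (t • Y) * (Y * K - K * Y) * NormedSpace.exp (t • (-Y)) := by
        noncomm_ring
      rw [e1, h, hcomm, mul_assoc, hinv, mul_one, one_smul, sub_self]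
    rw [h0] at h3
    exact h3
  have hconst := is_const_of_deriv_eq_zero (fun t => (hd t).differentiableAt)
    (fun t => (hd t).deriv) 1 0
  simp only [hf, one_smul, zero_smul, sub_zero, NormedSpace.exp_zero, one_mul, mul_one] at hconst
  rw [sub_eq_iff_eq_add] at hconst
  exact hconst

end CNJ

theorem t_CNJ : S_CNJ := by
  intro Λ _ _ d _ Y K Z h hc
  open scoped Matrix.Norms.Operator in exact CNJ.general Y K Z h hc

end Pool.Agent.K6.H5.CC
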