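import Pool.Agent.K6.H5.CC.Stm

/-!
# Piece CNT: the number of eigenvalues near the bottom
-/

set_option autoImplicit false

open Finset Matrix

namespace Pool.Agent.K6.H5.CC

namespace CNT

set_option linter.unusedSectionVars false

variable {Λ : Type} [Fintype Λ] [DecidableEq Λ] {d : ℕ} [NeZero d]

/-- the `ℓ¹` norm -/
noncomputable def n1 (x : Cf Λ d → ℂ) : ℝ := ∑ i, ‖x i‖

theorem n1_nonneg (x : Cf Λ d → ℂ) : 0 ≤ n1 x := Finset.sum_nonneg fun _ _ => norm_nonneg _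

theorem n1_pos (x : Cf Λ d → ℂ) (hx : x ≠ 0) : 0 < n1 x := by
  obtain ⟨i, hi⟩ := Function.ne_iff.1 hx
  exact Finset.sum_pos' (fun _ _ => norm_nonneg _) ⟨i, mem_univ _, norm_pos_iff.2 hi⟩

theorem n1_vecMul (x : Cf Λ d → ℂ) (M : Matrix (Cf Λ d) (Cf Λ d) ℂ) (b : ℝ) (h : RB M b) :
    n1 (x ᵥ* M) ≤ n1 x * b := by
  calc n1 (x ᵥ* M) = ∑ n', ‖∑ n, x n * M n n'‖ := rfl
    _ ≤ ∑ n', ∑ n, ‖x n‖ * ‖M n n'‖ :=
        Finset.sum_le_sum fun n' _ => (norm_sum_le _ _).trans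
          (le_of_eq (Finset.sum_congr rfl fun n _ => norm_mul _ _))
    _ = ∑ n, ‖x n‖ * ∑ n', ‖M n n'‖ := by
        rw [Finset.sum_comm]
        exact Finset.sum_congr rfl fun n _ => by rw [Finset.mul_sum]
    _ ≤ ∑ n, ‖x n‖ * b :=
        Finset.sum_le_sum fun n _ => mul_le_mul_of_nonneg_left (h n) (norm_nonneg _)
    _ = n1 x * b := by rw [← Finset.sum_mul]; rfl

theorem sq_n1_le (x : Cf Λ d → ℂ) :
    (n1 x) ^ 2 ≤ Fintype.card (Cf Λ d) * ∑ i, ‖x i‖ ^ 2 := by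
  have := sq_sum_le_card_mul_sum_sq (s := (univ : Finset (Cf Λ d))) (f := fun i => ‖x i‖)
  simpa [n1] using this

theorem sum_sq_le (x : Cf Λ d → ℂ) : ∑ i, ‖x i‖ ^ 2 ≤ (n1 x) ^ 2 := by
  rw [sq (n1 x)]
  calc ∑ i, ‖x i‖ ^ 2 ≤ ∑ i, ‖x i‖ * n1 x := by
        refine Finset.sum_le_sum fun i _ => ?_
        rw [sq]
        exact mul_le_mul_of_nonneg_left
          (Finset.single_le_sum (f := fun i => ‖x i‖) (fun _ _ => norm_nonneg _) (mem_univ i))
          (norm_nonneg _)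
    _ = n1 x * n1 x := by rw [← Finset.sum_mul]; rfl

theorem self_star (x : Cf Λ d → ℂ) : x ⬝ᵥ star x = ((∑ i, ‖x i‖ ^ 2 : ℝ) : ℂ) := by
  push_cast
  unfold dotProduct
  refine Finset.sum_congr rfl fun i _ => ?_
  rw [Pi.star_apply]
  exact Complex.mul_conj' (x i)

theorem unit_sq (U : Matrix (Cf Λ d) (Cf Λ d) ℂ) (hU : star U * U = 1) (a : Cf Λ d → ℂ) :
    ∑ i, ‖(a ᵥ* star U) i‖ ^ 2 = ∑ i, ‖a i‖ ^ 2 := by
  have h1 : (a ᵥ* star U) ⬝ᵥ star (a ᵥ* star U) = a ⬝ᵥ star a := by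
    rw [Matrix.star_vecMul, ← Matrix.star_eq_conjTranspose, star_star,
      ← Matrix.dotProduct_mulVec, Matrix.mulVec_mulVec, hU, Matrix.one_mulVec]
  rw [self_star, self_star] at h1
  exact_mod_cast h1

/-- growth of vectors which vanish on the low configurations -/
theorem grow (e : Fin d → ℝ) (T : Matrix (Cf Λ d) (Cf Λ d) ℂ) (E : ℂ) (hT : Rel e T E) (c : ℝ)
    (he : ∀ n : Cf Λ d, 0 ≤ en e n) (u : Cf Λ d → ℂ)
    (hu : ∀ n : Cf Λ d, en e n < 2 * c → u n = 0) :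
    c * n1 u ≤ n1 (u ᵥ* (T - E • (1 : Matrix (Cf Λ d) (Cf Λ d) ℂ))) := by
  have h1 : ∀ n', ∑ n, u n * (T n n' - NN e n n' - (if n = n' then E else 0)) =
      (u ᵥ* (T - E • (1 : Matrix (Cf Λ d) (Cf Λ d) ℂ))) n' - ((en e n' : ℝ) : ℂ) * u n' := by
    intro n'
    have h3 : ∑ n, u n * NN e n n' = u n' * ((en e n' : ℝ) : ℂ) := by
      rw [Finset.sum_eq_single n']
      · simp [NN]
      · intro b _ hb
        simp [NN, Matrix.diagonal_apply_ne _ hb]
      · intro h; exact absurd (mem_univ _) h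
    have h4 : (u ᵥ* (T - E • (1 : Matrix (Cf Λ d) (Cf Λ d) ℂ))) n' =
        ∑ n, u n * (T n n' - (if n = n' then E else 0)) := by
      show ∑ n, u n * (T - E • (1 : Matrix (Cf Λ d) (Cf Λ d) ℂ)) n n' = _
      refine Finset.sum_congr rfl fun n _ => ?_
      rw [Matrix.sub_apply, Matrix.smul_apply, Matrix.one_apply]
      split_ifs <;> simp
    rw [h4, mul_comm, ← h3, ← Finset.sum_sub_distrib]
    exact Finset.sum_congr rfl fun n _ => by ring
  have h2 : ∑ n' : Cf Λ d, en e n' * ‖u n'‖ ≤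
      n1 (u ᵥ* (T - E • (1 : Matrix (Cf Λ d) (Cf Λ d) ℂ))) +
      ∑ n : Cf Λ d, ‖u n‖ * (en e n / 2) := by
    calc ∑ n' : Cf Λ d, en e n' * ‖u n'‖
        ≤ ∑ n', (‖(u ᵥ* (T - E • (1 : Matrix (Cf Λ d) (Cf Λ d) ℂ))) n'‖ +
            ∑ n, ‖u n‖ * ‖T n n' - NN e n n' - (if n = n' then E else 0)‖) := by
          refine Finset.sum_le_sum fun n' _ => ?_
          have h5 : ((en e n' : ℝ) : ℂ) * u n' =
              (u ᵥ* (T - E • (1 : Matrix (Cf Λ d) (Cf Λ d) ℂ))) n' -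
              ∑ n, u n * (T n n' - NN e n n' - (if n = n' then E else 0)) := by
            rw [h1 n']; ring
          have h6 : en e n' * ‖u n'‖ = ‖((en e n' : ℝ) : ℂ) * u n'‖ := by
            rw [norm_mul, Complex.norm_real, Real.norm_of_nonneg (he n')]
          rw [h6, h5]
          refine (norm_sub_le _ _).trans ?_
          refine add_le_add le_rfl ((norm_sum_le _ _).trans
            (le_of_eq (Finset.sum_congr rfl fun n _ => norm_mul _ _)))
      _ = n1 (u ᵥ* (T - E • (1 : Matrix (Cf Λ d) (Cf Λ d) ℂ))) +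
            ∑ n, ‖u n‖ * ∑ n', ‖T n n' - NN e n n' - (if n = n' then E else 0)‖ := by
          rw [Finset.sum_add_distrib, Finset.sum_comm]
          congr 1
          exact Finset.sum_congr rfl fun n _ => by rw [Finset.mul_sum]
      _ ≤ n1 (u ᵥ* (T - E • (1 : Matrix (Cf Λ d) (Cf Λ d) ℂ))) +
            ∑ n, ‖u n‖ * (en e n / 2) :=
          add_le_add le_rfl (Finset.sum_le_sum fun n _ =>
            mul_le_mul_of_nonneg_left (hT n) (norm_nonneg _))
  have h3 : c * n1 u ≤ ∑ n : Cf Λ d, ‖u n‖ * (en e n / 2) := by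
    unfold n1
    rw [Finset.mul_sum]
    refine Finset.sum_le_sum fun n _ => ?_
    by_cases hn : en e n < 2 * c
    · rw [hu n hn]; simp
    · push Not at hn
      rw [mul_comm]
      exact mul_le_mul_of_nonneg_left (by linarith) (norm_nonneg _)
  have h4 : ∑ n' : Cf Λ d, en e n' * ‖u n'‖ =
      ∑ n : Cf Λ d, ‖u n‖ * (en e n / 2) + ∑ n : Cf Λ d, ‖u n‖ * (en e n / 2) := by
    rw [← Finset.sum_add_distrib]
    exact Finset.sum_congr rfl fun n _ => by ring
  linarith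

/-- the kernel of finitely many linear conditions -/
theorem exists_vec (Q : Matrix (Cf Λ d) (Cf Λ d) ℂ) (lam : Cf Λ d → ℝ) (E : ℝ)
    (p q : Cf Λ d → Prop) [DecidablePred p] [DecidablePred q] (J : ℕ)
    (h : J * #(univ.filter fun n => q n) < #(univ.filter fun j => p j)) :
    ∃ a : Cf Λ d → ℂ, a ≠ 0 ∧ (∀ j, ¬ p j → a j = 0) ∧
      ∀ k < J, ∀ n, q n → ((fun j => a j * ((lam j : ℂ) - E) ^ k) ᵥ* Q) n = 0 := by
  let f : (Cf Λ d → ℂ) →ₗ[ℂ] (((Fin J × {n : Cf Λ d // q n}) ⊕ {j : Cf Λ d // ¬ p j}) → ℂ) :=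
    { toFun := fun a x => match x with
        | Sum.inl y => ((fun j => a j * ((lam j : ℂ) - E) ^ (y.1 : ℕ)) ᵥ* Q) y.2.1
        | Sum.inr y => a y.1
      map_add' := by
        intro a b
        funext x
        rcases x with y | y
        · show ((fun j => (a + b) j * ((lam j : ℂ) - E) ^ (y.1 : ℕ)) ᵥ* Q) y.2.1 =
            ((fun j => a j * ((lam j : ℂ) - E) ^ (y.1 : ℕ)) ᵥ* Q) y.2.1 +
            ((fun j => b j * ((lam j : ℂ) - E) ^ (y.1 : ℕ)) ᵥ* Q) y.2.1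
          simp only [Matrix.vecMul, dotProduct, Pi.add_apply, add_mul, Finset.sum_add_distrib]
        · rfl
      map_smul' := by
        intro c a
        funext x
        rcases x with y | y
        · show ((fun j => (c • a) j * ((lam j : ℂ) - E) ^ (y.1 : ℕ)) ᵥ* Q) y.2.1 =
            c * ((fun j => a j * ((lam j : ℂ) - E) ^ (y.1 : ℕ)) ᵥ* Q) y.2.1
          simp only [Matrix.vecMul, dotProduct, Pi.smul_apply, smul_eq_mul, Finset.mul_sum]
          exact Finset.sum_congr rfl fun j _ => by ring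
        · rfl }
  have hdim : Module.finrank ℂ (((Fin J × {n : Cf Λ d // q n}) ⊕ {j : Cf Λ d // ¬ p j}) → ℂ) <
      Module.finrank ℂ (Cf Λ d → ℂ) := by
    rw [Module.finrank_fintype_fun_eq_card, Module.finrank_fintype_fun_eq_card,
      Fintype.card_sum, Fintype.card_prod, Fintype.card_fin, Fintype.card_subtype_compl,
      Fintype.card_subtype q, Fintype.card_subtype p]
    have h1 := Finset.card_filter_le (univ : Finset (Cf Λ d)) p
    rw [Finset.card_univ] at h1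
    have h2 : J * #(univ.filter q) < #(univ.filter p) := h
    have h3 : J * #(univ.filter q) + (Fintype.card (Cf Λ d) - #(univ.filter p)) <
        Fintype.card (Cf Λ d) := by omega
    exact h3
  obtain ⟨a, ha, ha0⟩ := Submodule.exists_mem_ne_zero_of_ne_bot
    (LinearMap.ker_ne_bot_of_finrank_lt (f := f) hdim)
  have hfa : f a = 0 := LinearMap.mem_ker.1 ha
  refine ⟨a, ha0, fun j hj => ?_, fun k hk n hn => ?_⟩
  · exact congrFun hfa (Sum.inr ⟨j, hj⟩)
  · exact congrFun hfa (Sum.inl (⟨k, hk⟩, ⟨n, hn⟩))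

end CNT

open CNT in
theorem t_CNT : S_CNT := by
  intro Λ _ _ d _ H S S' E e hH s s' J m hSS hSS' he0 he hT hlow hS hS' hJ
  by_contra hcon
  push Not at hcon
  have hen : ∀ n : Cf Λ d, 0 ≤ en e n := fun n => Finset.sum_nonneg fun i _ => he (n i)
  set U : Matrix (Cf Λ d) (Cf Λ d) ℂ := (hH.eigenvectorUnitary : Matrix (Cf Λ d) (Cf Λ d) ℂ)
    with hUdef
  have hU : star U * U = 1 := (Matrix.mem_unitaryGroup_iff'.1 hH.eigenvectorUnitary.2)
  set D : Matrix (Cf Λ d) (Cf Λ d) ℂ := Matrix.diagonal fun j => ((hH.eigenvalues j : ℝ) : ℂ)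
    with hDdef
  have hsp : H = U * D * star U := by
    have := hH.spectral_theorem
    rw [Unitary.conjStarAlgAut_apply] at this
    exact this
  set Q : Matrix (Cf Λ d) (Cf Λ d) ℂ := star U * S' with hQdef
  obtain ⟨a, ha0, hap, hak⟩ := exists_vec Q hH.eigenvalues E
    (fun j => hH.eigenvalues j ≤ E + m) (fun n => en e n < 4 * ((m : ℝ) + 1)) J hcon
  -- the vectors
  set ak : ℕ → Cf Λ d → ℂ := fun k j => a j * ((hH.eigenvalues j : ℂ) - E) ^ k with hak_def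
  have hQ : Q * (S * H * S' - (E : ℂ) • (1 : Matrix (Cf Λ d) (Cf Λ d) ℂ)) =
      (D - (E : ℂ) • (1 : Matrix (Cf Λ d) (Cf Λ d) ℂ)) * Q := by
    have h1 : Q * (S * H * S') = D * Q := by
      rw [hQdef]
      calc star U * S' * (S * H * S') = star U * (S' * S) * H * S' := by
            simp only [Matrix.mul_assoc]
        _ = star U * (U * D * star U) * S' := by rw [hSS', Matrix.mul_one, ← hsp]
        _ = (star U * U) * D * (star U * S') := by simp only [Matrix.mul_assoc]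
        _ = D * (star U * S') := by rw [hU, Matrix.one_mul]
    rw [Matrix.mul_sub, Matrix.sub_mul, h1, Matrix.mul_smul, Matrix.mul_one, Matrix.smul_mul,
      Matrix.one_mul]
  have hstep : ∀ k, (ak k ᵥ* Q) ᵥ* (S * H * S' - (E : ℂ) • (1 : Matrix (Cf Λ d) (Cf Λ d) ℂ)) =
      ak (k + 1) ᵥ* Q := by
    intro k
    rw [Matrix.vecMul_vecMul, hQ, ← Matrix.vecMul_vecMul]
    congr 1
    funext j
    have h1 : D - (E : ℂ) • (1 : Matrix (Cf Λ d) (Cf Λ d) ℂ) =
        Matrix.diagonal fun j => ((hH.eigenvalues j : ℝ) : ℂ) - E := by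
      rw [hDdef, ← Matrix.diagonal_one, ← Matrix.diagonal_smul, Matrix.diagonal_sub]
      congr 1
      funext j
      simp
    rw [h1, Matrix.vecMul_diagonal]
    simp only [hak_def, pow_succ]
    ring
  -- lower bound
  have hgrow : ∀ k ≤ J, (2 * ((m : ℝ) + 1)) ^ k * n1 (ak 0 ᵥ* Q) ≤ n1 (ak k ᵥ* Q) := by
    intro k
    induction k with
    | zero => intro _; simp
    | succ k ih =>
      intro hk
      have h1 := ih (by omega)
      have h2 := grow e (S * H * S') (E : ℂ) hT (2 * ((m : ℝ) + 1)) hen (ak k ᵥ* Q)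
        (fun n hn => hak k (by omega) n (by linarith))
      rw [hstep k] at h2
      refine le_trans ?_ h2
      rw [pow_succ]
      calc (2 * ((m : ℝ) + 1)) ^ k * (2 * ((m : ℝ) + 1)) * n1 (ak 0 ᵥ* Q)
          = (2 * ((m : ℝ) + 1)) * ((2 * ((m : ℝ) + 1)) ^ k * n1 (ak 0 ᵥ* Q)) := by ring
        _ ≤ (2 * ((m : ℝ) + 1)) * n1 (ak k ᵥ* Q) :=
            mul_le_mul_of_nonneg_left h1 (by positivity)
  -- the norms
  have hN : (0 : ℝ) < Fintype.card (Cf Λ d) := by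
    have : 0 < Fintype.card (Cf Λ d) := Fintype.card_pos_iff.2 ⟨vac⟩
    exact_mod_cast this
  have hs : 0 ≤ s := le_trans (Finset.sum_nonneg fun _ _ => norm_nonneg _) (hS vac)
  have hs' : 0 ≤ s' := le_trans (Finset.sum_nonneg fun _ _ => norm_nonneg _) (hS' vac)
  have hak0 : ak 0 = a := by
    funext j
    simp [hak_def]
  have hu0 : ak 0 ᵥ* Q ≠ 0 := by
    rw [hak0]
    intro h0
    apply ha0
    have h1 : a ᵥ* (Q * (S * U)) = a := by
      have : Q * (S * U) = 1 := by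
        rw [hQdef]
        calc star U * S' * (S * U) = star U * (S' * S) * U := by simp only [Matrix.mul_assoc]
          _ = 1 := by rw [hSS', Matrix.mul_one, hU]
      rw [this, Matrix.vecMul_one]
    rw [← h1, ← Matrix.vecMul_vecMul, h0, Matrix.zero_vecMul]
  have hpos := n1_pos _ hu0
  have hupper : n1 (ak J ᵥ* Q) ≤
      s * s' * Real.sqrt (Fintype.card (Cf Λ d)) * (m : ℝ) ^ J * n1 (ak 0 ᵥ* Q) := by
    have h1 : n1 (ak J ᵥ* Q) ≤ n1 (ak J ᵥ* star U) * s' := by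
      rw [hQdef, ← Matrix.vecMul_vecMul]
      exact n1_vecMul _ _ _ hS'
    have h2 : (n1 (ak J ᵥ* star U)) ^ 2 ≤ Fintype.card (Cf Λ d) * ∑ i, ‖ak J i‖ ^ 2 := by
      rw [← unit_sq U hU]
      exact sq_n1_le _
    have h3 : ∑ i, ‖ak J i‖ ^ 2 ≤ ((m : ℝ) ^ J) ^ 2 * ∑ i, ‖a i‖ ^ 2 := by
      rw [Finset.mul_sum]
      refine Finset.sum_le_sum fun j _ => ?_
      by_cases hj : hH.eigenvalues j ≤ E + m
      · have h4 : ‖((hH.eigenvalues j : ℂ) - E)‖ ≤ m := by
          rw [← Complex.ofReal_sub, Complex.norm_real, Real.norm_of_nonneg (by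
            have := hlow j; linarith)]
          linarith
        simp only [hak_def]
        rw [norm_mul, norm_pow, mul_pow, mul_comm]
        exact mul_le_mul_of_nonneg_right
          (pow_le_pow_left₀ (by positivity) (pow_le_pow_left₀ (norm_nonneg _) h4 J) 2)
          (by positivity)
      · simp only [hak_def]
        rw [hap j hj]
        simp
    have h5 : ∑ i, ‖a i‖ ^ 2 ≤ (n1 (ak 0 ᵥ* Q) * s) ^ 2 := by
      rw [← unit_sq U hU a]
      refine (sum_sq_le _).trans ?_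
      have h6 : a ᵥ* star U = (ak 0 ᵥ* Q) ᵥ* S := by
        rw [hak0, hQdef, Matrix.vecMul_vecMul, Matrix.mul_assoc, hSS', Matrix.mul_one]
      rw [h6]
      exact pow_le_pow_left₀ (n1_nonneg _) (n1_vecMul _ _ _ hS) 2
    have h7 : (n1 (ak J ᵥ* star U)) ^ 2 ≤
        (Real.sqrt (Fintype.card (Cf Λ d)) * (m : ℝ) ^ J * (n1 (ak 0 ᵥ* Q) * s)) ^ 2 := by
      rw [mul_pow, mul_pow, Real.sq_sqrt hN.le, mul_assoc]
      refine h2.trans (mul_le_mul_of_nonneg_left ?_ hN.le)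
      exact h3.trans (mul_le_mul_of_nonneg_left h5 (by positivity))
    have h8 : n1 (ak J ᵥ* star U) ≤
        Real.sqrt (Fintype.card (Cf Λ d)) * (m : ℝ) ^ J * (n1 (ak 0 ᵥ* Q) * s) :=
      (sq_le_sq₀ (n1_nonneg _) (by positivity)).1 h7
    calc n1 (ak J ᵥ* Q) ≤ n1 (ak J ᵥ* star U) * s' := h1
      _ ≤ (Real.sqrt (Fintype.card (Cf Λ d)) * (m : ℝ) ^ J * (n1 (ak 0 ᵥ* Q) * s)) * s' :=
          mul_le_mul_of_nonneg_right h8 hs'
      _ = s * s' * Real.sqrt (Fintype.card (Cf Λ d)) * (m : ℝ) ^ J * n1 (ak 0 ᵥ* Q) := by ring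
  have hlower := hgrow J le_rfl
  have h9 : (2 * ((m : ℝ) + 1)) ^ J ≤
      s * s' * Real.sqrt (Fintype.card (Cf Λ d)) * (m : ℝ) ^ J :=
    le_of_mul_le_mul_right (hlower.trans hupper) hpos
  have h10 : (m : ℝ) ^ J ≤ ((m : ℝ) + 1) ^ J :=
    pow_le_pow_left₀ (by positivity) (by linarith) J
  have h11 : s * s' * Real.sqrt (Fintype.card (Cf Λ d)) * (m : ℝ) ^ J ≤
      s * s' * Real.sqrt (Fintype.card (Cf Λ d)) * ((m : ℝ) + 1) ^ J :=
    mul_le_mul_of_nonneg_left h10 (by positivity)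
  have h12 : s * s' * Real.sqrt (Fintype.card (Cf Λ d)) * ((m : ℝ) + 1) ^ J <
      2 ^ J * ((m : ℝ) + 1) ^ J :=
    mul_lt_mul_of_pos_right hJ (by positivity)
  rw [mul_pow] at h9
  linarith

end Pool.Agent.K6.H5.CC
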