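import Pool.Agent.K6.H5.CC.Stm

/-! # Piece CTC (seat helper7) -/

set_option autoImplicit false

open Finset Matrix

namespace Pool.Agent.K6.H5.CC

namespace CTC

variable {Λ : Type} [Fintype Λ] [DecidableEq Λ] {d : ℕ} [NeZero d]

/-- change one site, or nothing -/
def ch (p : Option (Λ × Fin d) × Cf Λ d) : Cf Λ d :=
  match p.1 with
  | none => p.2
  | some ia => Function.update p.2 ia.1 ia.2

theorem occ_update (n : Cf Λ d) (i : Λ) : occ (Function.update n i 0) = (occ n).erase i := by
  ext j
  unfold occ
  rw [Finset.mem_erase, Finset.mem_filter, Finset.mem_filter]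
  by_cases h : j = i
  · subst h
    simp
  · simp [h]

theorem step (k : ℕ) : (univ.filter fun n : Cf Λ d => #(occ n) ≤ k + 1) ⊆
    ((univ : Finset (Option (Λ × Fin d))) ×ˢ
      (univ.filter fun n : Cf Λ d => #(occ n) ≤ k)).image ch := by
  intro n hn
  rw [Finset.mem_filter] at hn
  rw [Finset.mem_image]
  rcases Finset.eq_empty_or_nonempty (occ n) with h | ⟨i, hi⟩
  · refine ⟨(none, n), ?_, rfl⟩
    rw [Finset.mem_product, Finset.mem_filter]
    refine ⟨Finset.mem_univ _, Finset.mem_univ _, ?_⟩
    show #(occ n) ≤ k
    rw [h, Finset.card_empty]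
    exact Nat.zero_le _
  · refine ⟨(some (i, n i), Function.update n i 0), ?_, ?_⟩
    · rw [Finset.mem_product, Finset.mem_filter]
      refine ⟨Finset.mem_univ _, Finset.mem_univ _, ?_⟩
      show #(occ (Function.update n i 0)) ≤ k
      rw [occ_update, Finset.card_erase_of_mem hi]
      omega
    · show Function.update (Function.update n i 0) i (n i) = n
      rw [Function.update_idem, Function.update_eq_self]

end CTC

/-- piece CTC -/
theorem t_CTC : S_CTC := by
  intro Λ _ _ d _ k
  induction k with
  | zero =>
    rw [pow_zero, Finset.card_le_one]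
    intro a ha b hb
    rw [Finset.mem_filter, Nat.le_zero, Finset.card_eq_zero] at ha hb
    funext i
    have h1 : i ∉ occ a := by rw [ha.2]; exact Finset.notMem_empty i
    have h2 : i ∉ occ b := by rw [hb.2]; exact Finset.notMem_empty i
    unfold occ at h1 h2
    simp only [Finset.mem_filter, Finset.mem_univ, true_and, not_not] at h1 h2
    rw [h1, h2]
  | succ k ih =>
    refine (Finset.card_le_card (CTC.step k)).trans (Finset.card_image_le.trans ?_)
    rw [Finset.card_product, Finset.card_univ, Fintype.card_option, Fintype.card_prod,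
      Fintype.card_fin, pow_succ, mul_comm, add_comm (Fintype.card Λ * d) 1]
    exact Nat.mul_le_mul_right _ ih

end Pool.Agent.K6.H5.CC
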