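import Pool.Agent.K6.H5.CC.Stm

/-!
# Piece EST: the contraction estimate for the row of the vacuum
-/

set_option autoImplicit false

open Finset Matrix

namespace Pool.Agent.K6.H5.CC

namespace EST

set_option linter.unusedSectionVars false

variable {Λ : Type} [Fintype Λ] [DecidableEq Λ] {d : ℕ} [NeZero d]
  {J : Type} [Fintype J] {X : J → Finset Λ} {V : J → Matrix (Cf Λ d) (Cf Λ d) ℂ} {r : ℕ} {v : ℝ}

theorem part1 (h5 : S_EXA) (hV : Inter X V r v) (hv : 0 ≤ v) (i : Λ) :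
    ∑ c ∈ univ.filter (fun c : Cf Λ d => c i ≠ 0), ‖G V 0 c‖ ≤ r * v := by
  have h0 : ∀ M : Matrix (Cf Λ d) (Cf Λ d) ℂ, Th 0 M = M := by
    intro M
    unfold Th
    rw [neg_zero, (h5 Λ d 0 0).2.2.2.2, Matrix.one_mul, Matrix.mul_one]
  calc ∑ c ∈ univ.filter (fun c : Cf Λ d => c i ≠ 0), ‖G V 0 c‖
      ≤ ∑ c ∈ univ.filter (fun c : Cf Λ d => c i ≠ 0), ∑ j, ‖V j vac c‖ := by
        refine Finset.sum_le_sum fun c _ => ?_
        unfold G
        simp only [h0]
        exact norm_sum_le _ _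
    _ = ∑ j, ∑ c ∈ univ.filter (fun c : Cf Λ d => c i ≠ 0), ‖V j vac c‖ := Finset.sum_comm
    _ ≤ ∑ j, if i ∈ X j then v else 0 := by
        refine Finset.sum_le_sum fun j _ => ?_
        split_ifs with h
        · exact (Finset.sum_le_sum_of_subset_of_nonneg (filter_subset _ _)
            (fun _ _ _ => norm_nonneg _)).trans (hV.bd j vac)
        · refine le_of_eq (Finset.sum_eq_zero fun c hc => ?_)
          by_contra hne
          have hne' : V j vac c ≠ 0 := fun h0 => hne (by rw [h0, norm_zero])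
          have h1 := (hV.loc j).off vac c hne' i h
          exact (Finset.mem_filter.1 hc).2 h1.symm
    _ = #(univ.filter fun j => i ∈ X j) * v := by
        rw [← Finset.sum_filter, Finset.sum_const, nsmul_eq_mul]
    _ ≤ r * v := mul_le_mul_of_nonneg_right (by exact_mod_cast hV.mult i) hv

theorem res_sub (Y : Finset Λ) (A B : Cf Λ d → ℂ) : res Y A - res Y B = res Y (A - B) := by
  funext c
  unfold res
  simp only [Pi.sub_apply]
  split_ifs <;> simp

theorem part2 (h1 : S_RED) (h2 : S_RSB) (h3 : S_LIN) (h4 : S_LIP) (hV : Inter X V r v)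
    (hv : 0 ≤ v) (i : Λ) (A B : Cf Λ d → ℂ) (δ : ℝ) (hA : Sz A (1 / (2 * r)))
    (hB : Sz B (1 / (2 * r))) (hD : Sz (A - B) δ) :
    ∑ c ∈ univ.filter (fun c : Cf Λ d => c i ≠ 0), ‖G V A c - G V B c‖ ≤
      50 * r ^ 2 * v * δ := by
  have hr : (1 : ℝ) ≤ r := by exact_mod_cast hV.one_le
  have hr0 : (0 : ℝ) < r := by linarith
  have hδ : 0 ≤ δ := le_trans (Finset.sum_nonneg fun _ _ => by positivity) (hD.2 i)
  have hhalf : ∀ C : Cf Λ d → ℂ, Sz C (1 / (2 * r)) → ∀ j, ∑ c, ‖res (X j) C c‖ ≤ 1 / 2 := by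
    intro C hC j
    refine ((h2 Λ d C _ hC).1 (X j)).trans ?_
    have h5 : (#(X j) : ℝ) ≤ r := by exact_mod_cast hV.card j
    calc (#(X j) : ℝ) * (1 / (2 * r)) ≤ r * (1 / (2 * r)) :=
          mul_le_mul_of_nonneg_right h5 (by positivity)
      _ = 1 / 2 := by field_simp
  have hdel : ∀ j, ∑ c, ‖res (X j) A c - res (X j) B c‖ ≤ r * δ := by
    intro j
    have h5 : (#(X j) : ℝ) ≤ r := by exact_mod_cast hV.card j
    have h6 := (h2 Λ d (A - B) _ hD).1 (X j)
    rw [← res_sub] at h6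
    exact h6.trans (mul_le_mul_of_nonneg_right h5 hδ)
  have hone : ∀ j, ∑ c, ‖res (X j) A c - res (X j) B c‖ ≤ 1 := by
    intro j
    calc ∑ c, ‖res (X j) A c - res (X j) B c‖
        ≤ ∑ c, (‖res (X j) A c‖ + ‖res (X j) B c‖) :=
          Finset.sum_le_sum fun c _ => norm_sub_le _ _
      _ = ∑ c, ‖res (X j) A c‖ + ∑ c, ‖res (X j) B c‖ := Finset.sum_add_distrib
      _ ≤ 1 / 2 + 1 / 2 := add_le_add (hhalf A hA j) (hhalf B hB j)
      _ = 1 := by norm_num
  have hterm : ∀ j, ∑ c ∈ univ.filter (fun c : Cf Λ d => c i ≠ 0),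
      ‖Th A (V j) vac c - Th B (V j) vac c‖ ≤
      (if i ∈ X j then 20 * v * (r * δ) else 0) +
        6 * v * ∑ c, ‖pt i (res (X j) (A - B)) c‖ +
        40 * v * (r * δ) * ∑ c, ‖pt i (res (X j) B) c‖ := by
    intro j
    rw [h1 Λ d (X j) (V j) (hV.loc j) A, h1 Λ d (X j) (V j) (hV.loc j) B]
    have hP : 0 ≤ 6 * v * ∑ c, ‖pt i (res (X j) (A - B)) c‖ := by positivity
    have hQ : 0 ≤ 40 * v * (r * δ) * ∑ c, ‖pt i (res (X j) B) c‖ := by positivity
    by_cases hi : i ∈ X j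
    · rw [if_pos hi]
      have h5 := h3 Λ d (V j) v (hV.bd j) (res (X j) A) (res (X j) B)
        (∑ c, ‖res (X j) A c - res (X j) B c‖) (hhalf B hB j) le_rfl (hone j)
      have h6 : 20 * v * (∑ c, ‖res (X j) A c - res (X j) B c‖) ≤ 20 * v * (r * δ) :=
        mul_le_mul_of_nonneg_left (hdel j) (by positivity)
      have h7 : ∑ c ∈ univ.filter (fun c : Cf Λ d => c i ≠ 0),
          ‖Th (res (X j) A) (V j) vac c - Th (res (X j) B) (V j) vac c‖ ≤
          ∑ c, ‖Th (res (X j) A) (V j) vac c - Th (res (X j) B) (V j) vac c‖ :=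
        Finset.sum_le_sum_of_subset_of_nonneg (filter_subset _ _) (fun _ _ _ => norm_nonneg _)
      linarith
    · rw [if_neg hi, zero_add]
      have hoff : ∀ n n', V j n n' ≠ 0 → n i = n' i := fun n n' h => (hV.loc j).off n n' h i hi
      have h5 := h4 Λ d i (V j) v hoff (hV.bd j) (res (X j) A) (res (X j) B)
        (∑ c, ‖res (X j) A c - res (X j) B c‖) (hhalf A hA j) (hhalf B hB j) le_rfl (hone j)
      rw [res_sub] at h5
      have h6 : 40 * v * (∑ c, ‖res (X j) A c - res (X j) B c‖) *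
          ∑ c, ‖pt i (res (X j) B) c‖ ≤ 40 * v * (r * δ) * ∑ c, ‖pt i (res (X j) B) c‖ :=
        mul_le_mul_of_nonneg_right (mul_le_mul_of_nonneg_left (hdel j) (by positivity))
          (Finset.sum_nonneg fun _ _ => norm_nonneg _)
      linarith
  have hPs := (h2 Λ d (A - B) _ hD).2.2 J X r hV.mult i
  have hQs := (h2 Λ d B _ hB).2.2 J X r hV.mult i
  have hSs : ∑ j, (if i ∈ X j then 20 * v * (r * δ) else 0) ≤ r * (20 * v * (r * δ)) := by
    rw [← Finset.sum_filter, Finset.sum_const, nsmul_eq_mul]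
    exact mul_le_mul_of_nonneg_right (by exact_mod_cast hV.mult i) (by positivity)
  calc ∑ c ∈ univ.filter (fun c : Cf Λ d => c i ≠ 0), ‖G V A c - G V B c‖
      ≤ ∑ c ∈ univ.filter (fun c : Cf Λ d => c i ≠ 0), ∑ j,
          ‖Th A (V j) vac c - Th B (V j) vac c‖ := by
        refine Finset.sum_le_sum fun c _ => ?_
        unfold G
        rw [← Finset.sum_sub_distrib]
        exact norm_sum_le _ _
    _ = ∑ j, ∑ c ∈ univ.filter (fun c : Cf Λ d => c i ≠ 0),
          ‖Th A (V j) vac c - Th B (V j) vac c‖ := Finset.sum_comm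
    _ ≤ ∑ j, ((if i ∈ X j then 20 * v * (r * δ) else 0) +
        6 * v * ∑ c, ‖pt i (res (X j) (A - B)) c‖ +
        40 * v * (r * δ) * ∑ c, ‖pt i (res (X j) B) c‖) := Finset.sum_le_sum fun j _ => hterm j
    _ = ∑ j, (if i ∈ X j then 20 * v * (r * δ) else 0) +
        6 * v * ∑ j, ∑ c, ‖pt i (res (X j) (A - B)) c‖ +
        40 * v * (r * δ) * ∑ j, ∑ c, ‖pt i (res (X j) B) c‖ := by
        rw [Finset.sum_add_distrib, Finset.sum_add_distrib, ← Finset.mul_sum, ← Finset.mul_sum]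
    _ ≤ r * (20 * v * (r * δ)) + 6 * v * (r * δ) + 40 * v * (r * δ) * (r * (1 / (2 * r))) := by
        have h6 : 6 * v * ∑ j, ∑ c, ‖pt i (res (X j) (A - B)) c‖ ≤ 6 * v * (r * δ) :=
          mul_le_mul_of_nonneg_left hPs (by positivity)
        have h7 : 40 * v * (r * δ) * ∑ j, ∑ c, ‖pt i (res (X j) B) c‖ ≤
            40 * v * (r * δ) * (r * (1 / (2 * r))) :=
          mul_le_mul_of_nonneg_left hQs (by positivity)
        linarith
    _ = 20 * r ^ 2 * v * δ + 26 * (r * (v * δ)) := by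
        field_simp
        ring
    _ ≤ 50 * r ^ 2 * v * δ := by
        have h8 : (r : ℝ) * (v * δ) ≤ r ^ 2 * (v * δ) :=
          mul_le_mul_of_nonneg_right (by nlinarith) (by positivity)
        have h9 : 0 ≤ (r : ℝ) ^ 2 * (v * δ) := by positivity
        nlinarith

end EST

theorem t_EST (h1 : S_RED) (h2 : S_RSB) (h3 : S_LIN) (h4 : S_LIP) (h5 : S_EXA) : S_EST := by
  intro Λ _ _ d _ J _ X V r v hV i
  exact ⟨EST.part1 h5 hV hV.nn i,
    fun A B δ hA hB hD => EST.part2 h1 h2 h3 h4 hV hV.nn i A B δ hA hB hD⟩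

end Pool.Agent.K6.H5.CC
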