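import Pool.Agent.K6.H5.CC.Stm

/-! Piece EXA. -/

set_option autoImplicit false

open Finset Matrix

namespace Pool.Agent.K6.H5.CC

theorem t_EXA (h1 : S_MAT) : S_EXA := by
  intro Λ _ _ d _ A B
  have hc : Commute (mat A) (mat B) := (h1 Λ d A B).1
  have hn : mat (-A) = -mat A := (h1 Λ d A A).2.2.1
  have h0 : mat (0 : Cf Λ d → ℂ) = 0 := by
    ext n n'
    unfold mat
    simp
  have e0 : Ex (0 : Cf Λ d → ℂ) = 1 := by
    unfold Ex
    rw [h0, NormedSpace.exp_zero]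
  have e1 : ∀ A B : Cf Λ d → ℂ, Ex (A + B) = Ex A * Ex B := by
    intro A B
    have hc : Commute (mat A) (mat B) := (h1 Λ d A B).1
    unfold Ex
    rw [(h1 Λ d A B).2.1, Matrix.exp_add_of_commute _ _ hc]
  refine ⟨e1 A B, ?_, ?_, ?_, e0⟩
  · rw [← e1, add_neg_cancel, e0]
  · rw [← e1, neg_add_cancel, e0]
  · unfold Ex
    exact (hc.exp_left).eq

end Pool.Agent.K6.H5.CC
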