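import Pool.Agent.K6.H5.CC.RBA

/-!
# Piece EXB (helper84): row bounds of the exponential
-/

set_option autoImplicit false

open Finset Matrix

namespace Pool.Agent.K6.H5.CC

namespace EXB

variable {Λ : Type} [Fintype Λ] [DecidableEq Λ] {d : ℕ} [NeZero d]

theorem hasSum_exp (M : Matrix (Cf Λ d) (Cf Λ d) ℂ) :
    HasSum (fun k : ℕ => ((k.factorial : ℂ)⁻¹) • M ^ k) (NormedSpace.exp M) := by
  letI : SeminormedRing (Matrix (Cf Λ d) (Cf Λ d) ℂ) := Matrix.linftyOpSemiNormedRing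
  letI : NormedRing (Matrix (Cf Λ d) (Cf Λ d) ℂ) := Matrix.linftyOpNormedRing
  letI : NormedAlgebra ℂ (Matrix (Cf Λ d) (Cf Λ d) ℂ) := Matrix.linftyOpNormedAlgebra
  exact NormedSpace.exp_series_hasSum_exp' (𝕂 := ℂ) M

theorem pow_bd (M : Matrix (Cf Λ d) (Cf Λ d) ℂ) (y : ℝ) (h : RB M y) (k : ℕ) :
    RB (M ^ k) (y ^ k) := by
  induction k with
  | zero =>
    rw [pow_zero, pow_zero]
    exact (t_RBA Λ d M M y y h h).2.2.2.2.2
  | succ k ih =>
    rw [pow_succ, pow_succ]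
    exact (t_RBA Λ d (M ^ k) M (y ^ k) y ih h).2.2.1

theorem term_bd (M : Matrix (Cf Λ d) (Cf Λ d) ℂ) (y : ℝ) (h : RB M y) (k : ℕ) (n : Cf Λ d) :
    ∑ n', ‖(((k.factorial : ℂ)⁻¹) • M ^ k) n n'‖ ≤ y ^ k / (k.factorial : ℝ) := by
  have h1 : ∀ n', ‖(((k.factorial : ℂ)⁻¹) • M ^ k) n n'‖ =
      ((k.factorial : ℝ)⁻¹) * ‖(M ^ k) n n'‖ := by
    intro n'
    rw [Matrix.smul_apply, norm_smul, norm_inv, Complex.norm_natCast]
  simp only [h1]
  rw [← Finset.mul_sum, div_eq_inv_mul]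
  exact mul_le_mul_of_nonneg_left (pow_bd M y h k n) (by positivity)

/-- row sums are continuous -/
theorem row_cont (n : Cf Λ d) :
    Continuous fun M : Matrix (Cf Λ d) (Cf Λ d) ℂ => ∑ n', ‖M n n'‖ := by
  refine continuous_finset_sum _ fun n' _ => ?_
  exact ((continuous_apply n').comp (continuous_apply n)).norm

end EXB

theorem t_EXB : S_EXB := by
  intro Λ _ _ d _ M y h
  have hy : 0 ≤ y := le_trans (Finset.sum_nonneg fun _ _ => norm_nonneg _) (h vac)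
  have hs := (EXB.hasSum_exp M).tendsto_sum_nat
  have hsum : ∀ m : ℕ, ∑ k ∈ range m, y ^ k / (k.factorial : ℝ) ≤ Real.exp y := fun m =>
    Real.sum_le_exp_of_nonneg hy m
  constructor
  · intro n
    have h1 := ((EXB.row_cont n).tendsto (NormedSpace.exp M)).comp hs
    refine le_of_tendsto' h1 fun m => ?_
    show ∑ n', ‖(∑ k ∈ range m, ((k.factorial : ℂ)⁻¹) • M ^ k) n n'‖ ≤ _
    calc ∑ n', ‖(∑ k ∈ range m, ((k.factorial : ℂ)⁻¹) • M ^ k) n n'‖
        ≤ ∑ n', ∑ k ∈ range m, ‖(((k.factorial : ℂ)⁻¹) • M ^ k) n n'‖ := by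
          refine Finset.sum_le_sum fun n' _ => ?_
          rw [Matrix.sum_apply]
          exact norm_sum_le _ _
      _ = ∑ k ∈ range m, ∑ n', ‖(((k.factorial : ℂ)⁻¹) • M ^ k) n n'‖ := Finset.sum_comm
      _ ≤ ∑ k ∈ range m, y ^ k / (k.factorial : ℝ) :=
          Finset.sum_le_sum fun k _ => EXB.term_bd M y h k n
      _ ≤ Real.exp y := hsum m
  · intro n
    have hs' : Filter.Tendsto (fun m : ℕ =>
        (∑ k ∈ range (m + 1), ((k.factorial : ℂ)⁻¹) • M ^ k) - 1) Filter.atTop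
        (nhds (NormedSpace.exp M - 1)) :=
      ((Filter.tendsto_add_atTop_iff_nat 1).mpr hs).sub_const 1
    have h1 := ((EXB.row_cont n).tendsto (NormedSpace.exp M - 1)).comp hs'
    refine le_of_tendsto' h1 fun m => ?_
    have h2 : (∑ k ∈ range (m + 1), ((k.factorial : ℂ)⁻¹) • M ^ k) - 1 =
        ∑ k ∈ range m, (((k + 1).factorial : ℂ)⁻¹) • M ^ (k + 1) := by
      rw [Finset.sum_range_succ']
      simp
    have h3 : ∑ k ∈ range m, y ^ (k + 1) / ((k + 1).factorial : ℝ) ≤ Real.exp y - 1 := by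
      have h4 := hsum (m + 1)
      rw [Finset.sum_range_succ'] at h4
      simp only [pow_zero, Nat.factorial_zero, Nat.cast_one, div_one] at h4
      linarith
    show ∑ n', ‖((∑ k ∈ range (m + 1), ((k.factorial : ℂ)⁻¹) • M ^ k) - 1) n n'‖ ≤ _
    rw [h2]
    calc ∑ n', ‖(∑ k ∈ range m, (((k + 1).factorial : ℂ)⁻¹) • M ^ (k + 1)) n n'‖
        ≤ ∑ n', ∑ k ∈ range m, ‖((((k + 1).factorial : ℂ)⁻¹) • M ^ (k + 1)) n n'‖ := by
          refine Finset.sum_le_sum fun n' _ => ?_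
          rw [Matrix.sum_apply]
          exact norm_sum_le _ _
      _ = ∑ k ∈ range m, ∑ n', ‖((((k + 1).factorial : ℂ)⁻¹) • M ^ (k + 1)) n n'‖ :=
          Finset.sum_comm
      _ ≤ ∑ k ∈ range m, y ^ (k + 1) / ((k + 1).factorial : ℝ) :=
          Finset.sum_le_sum fun k _ => EXB.term_bd M y h (k + 1) n
      _ ≤ Real.exp y - 1 := h3

end Pool.Agent.K6.H5.CC
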