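import Pool.Agent.K6.H5.CC.Stm

/-!
# Piece `FIX` of call5: the fixed point
(helper35 for helper5)
-/

set_option autoImplicit false
set_option linter.unusedSectionVars false

open Finset Matrix Filter Topology

namespace Pool.Agent.K6.H5.CC

namespace FIX

variable {Λ : Type} [Fintype Λ] [DecidableEq Λ] {d : ℕ} [NeZero d] {J : Type} [Fintype J]

/-- the map whose fixed point is wanted -/
noncomputable def Ph (V : J → Matrix (Cf Λ d) (Cf Λ d) ℂ) (e : Fin d → ℝ) (A : Cf Λ d → ℂ) :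
    Cf Λ d → ℂ := fun c => if c = vac then 0 else -G V A c / ((en e c : ℝ) : ℂ)

theorem continuous_mat : Continuous (fun A : Cf Λ d → ℂ => (mat A : Matrix (Cf Λ d) (Cf Λ d) ℂ)) := by
  refine continuous_matrix fun n n' => ?_
  unfold mat
  by_cases h : ∀ i, n i ≠ 0 → n' i = n i
  · simp only [if_pos h]
    exact continuous_apply _
  · simp only [if_neg h]
    exact continuous_const

open scoped Matrix.Norms.Operator in
theorem continuous_Ex : Continuous (fun A : Cf Λ d → ℂ => (Ex A : Matrix (Cf Λ d) (Cf Λ d) ℂ)) := by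
  unfold Ex
  letI : NormedAlgebra ℚ (Matrix (Cf Λ d) (Cf Λ d) ℂ) := NormedAlgebra.restrictScalars ℚ ℂ _
  have h : Continuous (NormedSpace.exp : Matrix (Cf Λ d) (Cf Λ d) ℂ → _) :=
    NormedSpace.exp_continuous
  exact h.comp continuous_mat

theorem continuous_G (V : J → Matrix (Cf Λ d) (Cf Λ d) ℂ) (c : Cf Λ d) :
    Continuous (fun A : Cf Λ d → ℂ => G V A c) := by
  unfold G Th
  refine continuous_finsetSum _ fun j _ => ?_
  have h1 : Continuous (fun A : Cf Λ d → ℂ => Ex A * V j * Ex (-A)) :=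
    (continuous_Ex.mul continuous_const).mul (continuous_Ex.comp continuous_neg)
  exact h1.matrix_elem vac c

theorem continuous_Ph (V : J → Matrix (Cf Λ d) (Cf Λ d) ℂ) (e : Fin d → ℝ) :
    Continuous (Ph V e) := by
  refine continuous_pi fun c => ?_
  unfold Ph
  by_cases h : c = vac
  · simp only [if_pos h]
    exact continuous_const
  · simp only [if_neg h]
    exact (continuous_G V c).neg.div_const _

theorem en_ge (e : Fin d → ℝ) (g : ℝ) (h0 : e 0 = 0) (hg : ∀ α, α ≠ 0 → g ≤ e α) (c : Cf Λ d) :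
    g * #(occ c) ≤ en e c := by
  unfold en
  have h1 : ∑ i, e (c i) = ∑ i ∈ occ c, e (c i) := by
    unfold occ
    rw [Finset.sum_filter]
    refine Finset.sum_congr rfl fun i _ => ?_
    by_cases h : c i = 0
    · simp [h, h0]
    · simp [h]
  rw [h1, mul_comm, ← nsmul_eq_mul]
  refine Finset.card_nsmul_le_sum _ _ _ fun i hi => ?_
  unfold occ at hi
  exact hg _ (Finset.mem_filter.1 hi).2

theorem occ_pos {c : Cf Λ d} {i : Λ} (h : c i ≠ 0) : 1 ≤ #(occ c) := by
  rw [Nat.one_le_iff_ne_zero, Finset.card_ne_zero]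
  exact ⟨i, by unfold occ; exact Finset.mem_filter.2 ⟨Finset.mem_univ _, h⟩⟩

theorem key (V : J → Matrix (Cf Λ d) (Cf Λ d) ℂ) (e : Fin d → ℝ) (g : ℝ) (hg0 : 0 < g)
    (h0 : e 0 = 0) (hg : ∀ α, α ≠ 0 → g ≤ e α) (A B : Cf Λ d → ℂ) {c : Cf Λ d} {i : Λ}
    (hc : c i ≠ 0) :
    (#(occ c) : ℝ) * ‖Ph V e A c - Ph V e B c‖ ≤ ‖G V A c - G V B c‖ / g ∧
      (#(occ c) : ℝ) * ‖Ph V e A c‖ ≤ ‖G V A c‖ / g := by
  have hcv : c ≠ vac := fun h => hc (by rw [h]; rfl)
  have hen := en_ge e g h0 hg c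
  have hocc : (1 : ℝ) ≤ #(occ c) := by exact_mod_cast occ_pos hc
  have hpos : 0 < en e c := by nlinarith
  have hfrac : (#(occ c) : ℝ) / en e c ≤ 1 / g := by
    rw [div_le_div_iff₀ hpos hg0]
    linarith
  have hgen : ∀ x : ℂ, (#(occ c) : ℝ) * ‖x / ((en e c : ℝ) : ℂ)‖ ≤ ‖x‖ / g := by
    intro x
    rw [norm_div, Complex.norm_real, Real.norm_eq_abs, abs_of_pos hpos]
    calc (#(occ c) : ℝ) * (‖x‖ / en e c) = ‖x‖ * ((#(occ c) : ℝ) / en e c) := by ring
      _ ≤ ‖x‖ * (1 / g) := mul_le_mul_of_nonneg_left hfrac (norm_nonneg _)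
      _ = ‖x‖ / g := by ring
  constructor
  · have h1 : Ph V e A c - Ph V e B c = (-(G V A c - G V B c)) / ((en e c : ℝ) : ℂ) := by
      unfold Ph
      rw [if_neg hcv, if_neg hcv]
      ring
    rw [h1]
    have h2 := hgen (-(G V A c - G V B c))
    rwa [norm_neg] at h2
  · have h1 : Ph V e A c = (-(G V A c)) / ((en e c : ℝ) : ℂ) := by
      unfold Ph
      rw [if_neg hcv]
    rw [h1]
    have h2 := hgen (-(G V A c))
    rwa [norm_neg] at h2

end FIX

open FIX in
theorem t_FIX (h1 : S_EST) (_h2 : S_RSB) : S_FIX := by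
  intro Λ _ _ d _ J _ X V r v hI e g hg0 he0 hge hv
  have hr1 : (1 : ℝ) ≤ r := by exact_mod_cast hI.one_le
  have hr0 : (0 : ℝ) < r := by linarith
  set b : ℝ := 1 / (2 * r) with hb
  have hb0 : 0 ≤ b := by positivity
  have hEST := h1 Λ d J X V r v hI
  have hvg : v / g ≤ 1 / (100 * (r : ℝ) ^ 2) := by
    rw [div_le_iff₀ hg0]
    calc v ≤ g / (100 * (r : ℝ) ^ 2) := hv
      _ = 1 / (100 * (r : ℝ) ^ 2) * g := by ring
  -- Lipschitz
  have hlip : ∀ A B : Cf Λ d → ℂ, ∀ δ : ℝ, Sz A b → Sz B b → Sz (A - B) δ →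
      Sz (Ph V e A - Ph V e B) (δ / 2) := by
    intro A B δ hA hB hAB
    refine ⟨by simp [Ph], fun i => ?_⟩
    have hδ : 0 ≤ δ := le_trans (Finset.sum_nonneg fun c _ =>
      mul_nonneg (Nat.cast_nonneg _) (norm_nonneg _)) (hAB.2 i)
    have h3 := (hEST i).2 A B δ hA hB hAB
    calc ∑ c ∈ univ.filter (fun c : Cf Λ d => c i ≠ 0),
          (#(occ c) : ℝ) * ‖(Ph V e A - Ph V e B) c‖ ≤
        ∑ c ∈ univ.filter (fun c : Cf Λ d => c i ≠ 0), ‖G V A c - G V B c‖ / g := by
          refine Finset.sum_le_sum fun c hc => ?_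
          exact (key V e g hg0 he0 hge A B (Finset.mem_filter.1 hc).2).1
      _ = (∑ c ∈ univ.filter (fun c : Cf Λ d => c i ≠ 0), ‖G V A c - G V B c‖) / g := by
          rw [Finset.sum_div]
      _ ≤ (50 * (r : ℝ) ^ 2 * v * δ) / g := div_le_div_of_nonneg_right h3 hg0.le
      _ = 50 * (r : ℝ) ^ 2 * δ * (v / g) := by ring
      _ ≤ 50 * (r : ℝ) ^ 2 * δ * (1 / (100 * (r : ℝ) ^ 2)) :=
          mul_le_mul_of_nonneg_left hvg (by positivity)
      _ = δ / 2 := by field_simp; ring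
  have hsum0 : ∀ i : Λ, ∑ c ∈ univ.filter (fun c : Cf Λ d => c i ≠ 0),
      (#(occ c) : ℝ) * ‖Ph V e 0 c‖ ≤ b / 2 := by
    intro i
    have h3 := (hEST i).1
    calc ∑ c ∈ univ.filter (fun c : Cf Λ d => c i ≠ 0), (#(occ c) : ℝ) * ‖Ph V e 0 c‖ ≤
        ∑ c ∈ univ.filter (fun c : Cf Λ d => c i ≠ 0), ‖G V 0 c‖ / g := by
          refine Finset.sum_le_sum fun c hc => ?_
          exact (key V e g hg0 he0 hge 0 0 (Finset.mem_filter.1 hc).2).2
      _ = (∑ c ∈ univ.filter (fun c : Cf Λ d => c i ≠ 0), ‖G V 0 c‖) / g := by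
          rw [Finset.sum_div]
      _ ≤ (r * v) / g := div_le_div_of_nonneg_right h3 hg0.le
      _ = r * (v / g) := by ring
      _ ≤ r * (1 / (100 * (r : ℝ) ^ 2)) := mul_le_mul_of_nonneg_left hvg hr0.le
      _ ≤ b / 2 := by
          rw [hb]
          have h4 : (r : ℝ) * (1 / (100 * (r : ℝ) ^ 2)) = 1 / (100 * r) := by
            field_simp
          have h5 : 1 / (2 * (r : ℝ)) / 2 = 1 / (4 * r) := by
            field_simp
            norm_num
          rw [h4, h5]
          exact one_div_le_one_div_of_le (by positivity) (by linarith)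
  have hSz0 : Sz (0 : Cf Λ d → ℂ) b := ⟨rfl, fun i => by simpa using hb0⟩
  have hself : ∀ A : Cf Λ d → ℂ, Sz A b → Sz (Ph V e A) b := by
    intro A hA
    refine ⟨by simp [Ph], fun i => ?_⟩
    have h3 := (hlip A 0 b hA hSz0 (by rwa [sub_zero])).2 i
    have h4 := hsum0 i
    calc ∑ c ∈ univ.filter (fun c : Cf Λ d => c i ≠ 0), (#(occ c) : ℝ) * ‖Ph V e A c‖ ≤
        ∑ c ∈ univ.filter (fun c : Cf Λ d => c i ≠ 0),
          ((#(occ c) : ℝ) * ‖(Ph V e A - Ph V e 0) c‖ + (#(occ c) : ℝ) * ‖Ph V e 0 c‖) := by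
          refine Finset.sum_le_sum fun c _ => ?_
          rw [← mul_add]
          refine mul_le_mul_of_nonneg_left ?_ (Nat.cast_nonneg _)
          have h5 : Ph V e A c = (Ph V e A - Ph V e 0) c + Ph V e 0 c := by
            rw [Pi.sub_apply]; ring
          calc ‖Ph V e A c‖ = ‖(Ph V e A - Ph V e 0) c + Ph V e 0 c‖ := by rw [← h5]
            _ ≤ _ := norm_add_le _ _
      _ = (∑ c ∈ univ.filter (fun c : Cf Λ d => c i ≠ 0),
            (#(occ c) : ℝ) * ‖(Ph V e A - Ph V e 0) c‖) +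
          ∑ c ∈ univ.filter (fun c : Cf Λ d => c i ≠ 0), (#(occ c) : ℝ) * ‖Ph V e 0 c‖ :=
          Finset.sum_add_distrib
      _ ≤ b / 2 + b / 2 := add_le_add h3 h4
      _ = b := by ring
  -- iteration
  set a : ℕ → Cf Λ d → ℂ := fun k => (Ph V e)^[k] 0 with ha
  have ha0 : a 0 = 0 := rfl
  have has : ∀ k, a (k + 1) = Ph V e (a k) := fun k => Function.iterate_succ_apply' _ _ _
  have haSz : ∀ k, Sz (a k) b := by
    intro k
    induction k with
    | zero => exact hSz0
    | succ k ih => rw [has]; exact hself _ ih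
  have hadiff : ∀ k, Sz (a (k + 1) - a k) (b * (1 / 2) ^ k) := by
    intro k
    induction k with
    | zero =>
      rw [ha0, sub_zero, pow_zero, mul_one]
      exact haSz 1
    | succ k ih =>
      rw [has (k + 1), has k]
      have h3 := hlip _ _ _ (haSz (k + 1)) (haSz k) ih
      rw [has k] at h3
      have h4 : b * (1 / 2) ^ k / 2 = b * (1 / 2) ^ (k + 1) := by rw [pow_succ]; ring
      rw [h4] at h3
      exact h3
  have hdist : ∀ k, dist (a k) (a (k + 1)) ≤ b * (1 / 2) ^ k := by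
    intro k
    have hk0 : 0 ≤ b * (1 / 2) ^ k := by positivity
    rw [dist_pi_le_iff hk0]
    intro c
    rw [dist_comm, dist_eq_norm]
    by_cases hc : c = vac
    · rw [hc, (haSz (k + 1)).1, (haSz k).1, sub_zero, norm_zero]
      exact hk0
    · have hex : ∃ i, c i ≠ 0 := by
        by_contra hno
        push Not at hno
        exact hc (funext fun i => hno i)
      obtain ⟨i, hi⟩ := hex
      have h3 := (hadiff k).2 i
      have h4 : (#(occ c) : ℝ) * ‖(a (k + 1) - a k) c‖ ≤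
          ∑ c ∈ univ.filter (fun c : Cf Λ d => c i ≠ 0), (#(occ c) : ℝ) * ‖(a (k + 1) - a k) c‖ :=
        Finset.single_le_sum (f := fun c : Cf Λ d => (#(occ c) : ℝ) * ‖(a (k + 1) - a k) c‖)
          (fun c _ => mul_nonneg (Nat.cast_nonneg _) (norm_nonneg _))
          (Finset.mem_filter.2 ⟨Finset.mem_univ _, hi⟩)
      have h5 : (1 : ℝ) ≤ #(occ c) := by exact_mod_cast occ_pos hi
      have h6 : ‖(a (k + 1) - a k) c‖ ≤ (#(occ c) : ℝ) * ‖(a (k + 1) - a k) c‖ :=
        le_mul_of_one_le_left (norm_nonneg _) h5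
      exact (h6.trans h4).trans h3
  obtain ⟨A, hA⟩ := cauchySeq_tendsto_of_complete
    (cauchySeq_of_le_geometric (1 / 2) b (by norm_num) hdist)
  have hAc : ∀ c, Tendsto (fun k => a k c) atTop (𝓝 (A c)) := fun c =>
    (continuous_apply c).continuousAt.tendsto.comp hA
  have hfix : Ph V e A = A := by
    have h3 : Tendsto (fun k => a (k + 1)) atTop (𝓝 (Ph V e A)) := by
      simp only [has]
      exact (continuous_Ph V e).continuousAt.tendsto.comp hA
    exact tendsto_nhds_unique h3 (hA.comp (tendsto_add_atTop_nat 1))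
  refine ⟨A, ⟨?_, fun i => ?_⟩, ?_⟩
  · refine tendsto_nhds_unique (hAc vac) ?_
    have : (fun k => a k vac) = fun _ => (0 : ℂ) := funext fun k => (haSz k).1
    rw [this]
    exact tendsto_const_nhds
  · refine le_of_tendsto' (f := fun k => ∑ c ∈ univ.filter (fun c : Cf Λ d => c i ≠ 0),
      (#(occ c) : ℝ) * ‖a k c‖) (x := atTop) ?_ (fun k => (haSz k).2 i)
    exact tendsto_finsetSum _ fun c _ => ((hAc c).norm).const_mul _
  · intro c hc
    have hex : ∃ i, c i ≠ 0 := by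
      by_contra hno
      push Not at hno
      exact hc (funext fun i => hno i)
    obtain ⟨i, hi⟩ := hex
    have hen := en_ge e g he0 hge c
    have hocc : (1 : ℝ) ≤ #(occ c) := by exact_mod_cast occ_pos hi
    have hpos : 0 < en e c := by nlinarith
    have h3 := congrFun hfix c
    unfold Ph at h3
    rw [if_neg hc] at h3
    have hne : ((en e c : ℝ) : ℂ) ≠ 0 := by exact_mod_cast hpos.ne'
    rw [← h3]
    field_simp

end Pool.Agent.K6.H5.CC
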