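import Pool.Agent.K6.H5.CC.Stm

/-! # Piece LIN (seat helper7) -/

set_option autoImplicit false

open Finset Matrix

namespace Pool.Agent.K6.H5.CC

namespace LIN

theorem exp_bound {δ : ℝ} (h0 : 0 ≤ δ) (h1 : δ ≤ 1) :
    Real.exp (2 * (1 / 2)) * (Real.exp (2 * δ) - 1) ≤ 20 * δ := by
  have he : Real.exp 1 < 2.7182818286 := Real.exp_one_lt_d9
  have he0 : 0 < Real.exp 1 := Real.exp_pos 1
  have e2 : Real.exp 2 ≤ 7.4 := by
    have : Real.exp 2 = Real.exp 1 * Real.exp 1 := by rw [← Real.exp_add]; norm_num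
    rw [this]
    nlinarith
  have hc := convexOn_exp.2 (Set.mem_univ (0 : ℝ)) (Set.mem_univ (2 : ℝ))
    (by linarith : (0 : ℝ) ≤ 1 - δ) h0 (by ring)
  simp only [smul_eq_mul, mul_zero, zero_add, Real.exp_zero, mul_one] at hc
  rw [mul_comm δ 2] at hc
  have h3 : Real.exp (2 * δ) - 1 ≤ 6.4 * δ := by nlinarith
  have h4 : (2 : ℝ) * (1 / 2) = 1 := by norm_num
  rw [h4]
  have h5 : 0 ≤ Real.exp (2 * δ) - 1 := by
    have := Real.add_one_le_exp (2 * δ)
    linarith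
  calc Real.exp 1 * (Real.exp (2 * δ) - 1) ≤ 2.72 * (6.4 * δ) := by
        apply mul_le_mul _ h3 h5 (by norm_num)
        linarith
    _ ≤ 20 * δ := by nlinarith

end LIN

/-- piece LIN -/
theorem t_LIN (h2 : S_RBA) (h4 : S_EXA) (h5 : S_THB) : S_LIN := by
  intro Λ _ _ d _ M v hM A B δ hB hD hδ
  have hv : 0 ≤ v := (h2 Λ d M M v v hM hM).2.2.2.2.1
  have hδ0 : 0 ≤ δ := le_trans (Finset.sum_nonneg fun c _ => norm_nonneg _) hD
  set D : Cf Λ d → ℂ := A - B with hDdef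
  have hA : A = B + D := by rw [hDdef]; abel
  have hA' : -A = -D + -B := by rw [hDdef]; abel
  have h6 : Th A M = Th B (Th D M) := by
    unfold Th
    rw [hA']
    conv_lhs => rw [hA]
    rw [(h4 Λ d B D).1, (h4 Λ d (-D) (-B)).1]
    simp only [Matrix.mul_assoc]
  have h7 : Th A M - Th B M = Th B (Th D M - M) := by
    rw [h6]
    unfold Th
    rw [Matrix.mul_sub, Matrix.sub_mul]
  have h8 : RB (Th D M - M) ((Real.exp (2 * δ) - 1) * v) := (h5 Λ d D M δ v hD hM).2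
  have h9 := (h5 Λ d B (Th D M - M) (1 / 2) _ hB h8).1 vac
  rw [← h7] at h9
  have h10 : ∑ c, ‖Th A M vac c - Th B M vac c‖ = ∑ c, ‖(Th A M - Th B M) vac c‖ := rfl
  rw [h10]
  refine h9.trans ?_
  have := mul_le_mul_of_nonneg_right (LIN.exp_bound hδ0 hδ) hv
  calc Real.exp (2 * (1 / 2)) * ((Real.exp (2 * δ) - 1) * v)
      = Real.exp (2 * (1 / 2)) * (Real.exp (2 * δ) - 1) * v := by ring
    _ ≤ 20 * δ * v := this
    _ = 20 * v * δ := by ring

end Pool.Agent.K6.H5.CC
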