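import Pool.Agent.K6.H5.CC.Stm

/-!
# The Lipschitz bound for the terms which do not act on `i`
-/

set_option autoImplicit false
set_option linter.unusedSectionVars false

open Finset Matrix

namespace Pool.Agent.K6.H5.CC

namespace LipP

variable {Λ : Type} [Fintype Λ] [DecidableEq Λ] {d : ℕ} [NeZero d]

theorem np_le (i : Λ) (A : Cf Λ d → ℂ) : ∑ c, ‖np i A c‖ ≤ ∑ c, ‖A c‖ := by
  refine Finset.sum_le_sum fun c _ => ?_
  unfold np
  split_ifs
  · exact le_rfl
  · simp

theorem exp_two_le (δ : ℝ) (h0 : 0 ≤ δ) (h1 : δ ≤ 1) : Real.exp (2 * δ) - 1 ≤ 6.4 * δ := by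
  have hc := convexOn_exp.2 (Set.mem_univ (0 : ℝ)) (Set.mem_univ (2 : ℝ))
    (sub_nonneg.2 h1) h0 (by ring)
  simp only [smul_eq_mul, Real.exp_zero, mul_one, mul_zero, zero_add] at hc
  rw [mul_comm δ 2] at hc
  have he : Real.exp 2 < 7.4 := by
    have h2 : Real.exp 2 = Real.exp 1 * Real.exp 1 := by
      rw [← Real.exp_add]; norm_num
    rw [h2]
    have := Real.exp_one_lt_d9
    have hp := Real.exp_pos 1
    nlinarith
  nlinarith

end LipP

open LipP

theorem t_LIP (h1 : S_MAT) (h2 : S_RBA) (h4 : S_EXA) (h5 : S_THB) (h6 : S_ROW) : S_LIP := by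
  intro Λ _ _ d _ i M v hM hv A B δ hA hB hD hδ
  have hv0 : 0 ≤ v := (h2 Λ d M M v v hv hv).2.2.2.2.1
  have hδ0 : 0 ≤ δ := le_trans (Finset.sum_nonneg fun c _ => norm_nonneg _) hD
  -- additivity
  have hsub : ∀ F G : Cf Λ d → ℂ, mat (F - G) = mat F - mat G := by
    intro F G
    rw [sub_eq_add_neg, (h1 Λ d F (-G)).2.1, (h1 Λ d G G).2.2.1, ← sub_eq_add_neg]
  have hpt : pt i (A - B) = pt i A - pt i B := by
    funext c
    by_cases h : c i = 0 <;> simp [pt, h]
  have hnp : np i A = np i B + np i (A - B) := by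
    funext c
    by_cases h : c i = 0 <;> simp [np, h]
  -- the bounds of the two commutators
  have hK : ∀ F : Cf Λ d → ℂ,
      RB (mat (pt i F) * M - M * mat (pt i F)) (2 * (∑ c, ‖pt i F c‖) * v) := by
    intro F
    have hP : RB (mat (pt i F)) (∑ c, ‖pt i F c‖) := (h1 Λ d (pt i F) (pt i F)).2.2.2.2
    have e1 : RB (mat (pt i F) * M) ((∑ c, ‖pt i F c‖) * v) := (h2 Λ d _ _ _ _ hP hv).2.2.1
    have e2 : RB (M * mat (pt i F)) (v * ∑ c, ‖pt i F c‖) := (h2 Λ d _ _ _ _ hv hP).2.2.1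
    have e3 := (h2 Λ d _ _ _ _ e1 e2).2.1
    have e4 : (∑ c, ‖pt i F c‖) * v + v * (∑ c, ‖pt i F c‖) = 2 * (∑ c, ‖pt i F c‖) * v := by
      ring
    rwa [e4] at e3
  -- the decomposition
  have hdec : Th (np i A) (mat (pt i A) * M - M * mat (pt i A)) -
      Th (np i B) (mat (pt i B) * M - M * mat (pt i B)) =
      Th (np i A) (mat (pt i (A - B)) * M - M * mat (pt i (A - B))) +
      Th (np i B) (Th (np i (A - B)) (mat (pt i B) * M - M * mat (pt i B)) -
        (mat (pt i B) * M - M * mat (pt i B))) := by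
    have e1 : Ex (np i A) = Ex (np i B) * Ex (np i (A - B)) := by
      conv_lhs => rw [hnp]
      exact (h4 Λ d _ _).1
    have e2 : Ex (-(np i A)) = Ex (-(np i (A - B))) * Ex (-(np i B)) := by
      conv_lhs => rw [hnp, neg_add_rev]
      exact (h4 Λ d _ _).1
    have e3 : ∀ K : Matrix (Cf Λ d) (Cf Λ d) ℂ,
        Th (np i A) K = Th (np i B) (Th (np i (A - B)) K) := by
      intro K
      unfold Th
      rw [e1, e2]
      noncomm_ring
    have e4 : ∀ (F : Cf Λ d → ℂ) (K K' : Matrix (Cf Λ d) (Cf Λ d) ℂ),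
        Th F (K - K') = Th F K - Th F K' := by
      intro F K K'
      unfold Th
      noncomm_ring
    have e5 : mat (pt i (A - B)) * M - M * mat (pt i (A - B)) =
        (mat (pt i A) * M - M * mat (pt i A)) - (mat (pt i B) * M - M * mat (pt i B)) := by
      rw [hpt, hsub]
      noncomm_ring
    have e6 := e4 (np i A) (mat (pt i A) * M - M * mat (pt i A))
      (mat (pt i B) * M - M * mat (pt i B))
    have e7 := e4 (np i B) (Th (np i (A - B)) (mat (pt i B) * M - M * mat (pt i B)))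
      (mat (pt i B) * M - M * mat (pt i B))
    rw [e5, e6, e7, ← e3]
    abel
  -- the two bounds
  have hexp1 : Real.exp (2 * (1 / 2 : ℝ)) < 2.72 := by
    have := Real.exp_one_lt_d9
    norm_num at this ⊢
    linarith
  have b1 : ∑ c, ‖Th (np i A) (mat (pt i (A - B)) * M - M * mat (pt i (A - B))) vac c‖ ≤
      6 * v * ∑ c, ‖pt i (A - B) c‖ := by
    have := (h5 Λ d (np i A) _ (1 / 2) _ (le_trans (np_le i A) hA) (hK (A - B))).1 vac
    refine le_trans this ?_
    have hp : 0 ≤ (∑ c, ‖pt i (A - B) c‖) * v :=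
      mul_nonneg (Finset.sum_nonneg fun c _ => norm_nonneg _) hv0
    nlinarith
  have b2 : ∑ c, ‖Th (np i B) (Th (np i (A - B)) (mat (pt i B) * M - M * mat (pt i B)) -
        (mat (pt i B) * M - M * mat (pt i B))) vac c‖ ≤ 40 * v * δ * ∑ c, ‖pt i B c‖ := by
    have hd : ∑ c, ‖np i (A - B) c‖ ≤ δ := le_trans (np_le i (A - B)) (by simpa using hD)
    have c1 := (h5 Λ d (np i (A - B)) _ δ _ hd (hK B)).2
    have c2 := (h5 Λ d (np i B) _ (1 / 2) _ (le_trans (np_le i B) hB) c1).1 vac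
    refine le_trans c2 ?_
    have hp : 0 ≤ (∑ c, ‖pt i B c‖) * v :=
      mul_nonneg (Finset.sum_nonneg fun c _ => norm_nonneg _) hv0
    have he := exp_two_le δ hδ0 hδ
    have he0 : 0 ≤ Real.exp (2 * δ) - 1 := by
      have := Real.add_one_le_exp (2 * δ)
      linarith
    have q1 : (Real.exp (2 * δ) - 1) * (2 * (∑ c, ‖pt i B c‖) * v) ≤
        6.4 * δ * (2 * (∑ c, ‖pt i B c‖) * v) :=
      mul_le_mul_of_nonneg_right he (by nlinarith)
    have q2 : 0 ≤ 6.4 * δ * (2 * (∑ c, ‖pt i B c‖) * v) := by positivity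
    calc Real.exp (2 * (1 / 2)) * ((Real.exp (2 * δ) - 1) * (2 * (∑ c, ‖pt i B c‖) * v))
        ≤ Real.exp (2 * (1 / 2)) * (6.4 * δ * (2 * (∑ c, ‖pt i B c‖) * v)) :=
          mul_le_mul_of_nonneg_left q1 (Real.exp_pos _).le
      _ ≤ 2.72 * (6.4 * δ * (2 * (∑ c, ‖pt i B c‖) * v)) :=
          mul_le_mul_of_nonneg_right hexp1.le q2
      _ ≤ 40 * v * δ * ∑ c, ‖pt i B c‖ := by
          have : 0 ≤ δ * ((∑ c, ‖pt i B c‖) * v) := mul_nonneg hδ0 hp
          nlinarith
  -- the sum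
  calc ∑ c ∈ univ.filter (fun c : Cf Λ d => c i ≠ 0), ‖Th A M vac c - Th B M vac c‖
      = ∑ c ∈ univ.filter (fun c : Cf Λ d => c i ≠ 0),
          ‖(Th (np i A) (mat (pt i A) * M - M * mat (pt i A)) -
            Th (np i B) (mat (pt i B) * M - M * mat (pt i B))) vac c‖ := by
        refine Finset.sum_congr rfl fun c hc => ?_
        rw [h6 Λ d i M hM A c (Finset.mem_filter.1 hc).2,
          h6 Λ d i M hM B c (Finset.mem_filter.1 hc).2, Matrix.sub_apply]
    _ ≤ ∑ c, ‖(Th (np i A) (mat (pt i A) * M - M * mat (pt i A)) -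
            Th (np i B) (mat (pt i B) * M - M * mat (pt i B))) vac c‖ :=
        Finset.sum_le_sum_of_subset_of_nonneg (Finset.filter_subset _ _)
          fun c _ _ => norm_nonneg _
    _ ≤ ∑ c, (‖Th (np i A) (mat (pt i (A - B)) * M - M * mat (pt i (A - B))) vac c‖ +
          ‖Th (np i B) (Th (np i (A - B)) (mat (pt i B) * M - M * mat (pt i B)) -
        (mat (pt i B) * M - M * mat (pt i B))) vac c‖) := by
        refine Finset.sum_le_sum fun c _ => ?_
        rw [hdec, Matrix.add_apply]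
        exact norm_add_le _ _
    _ ≤ _ := by
        rw [Finset.sum_add_distrib]
        exact add_le_add b1 b2

end Pool.Agent.K6.H5.CC
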