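import Pool.Agent.K6.H5.CC.Stm

/-! Piece LOC (helper75): an operator which acts on `X` commutes with the terms outside of `X`. -/

set_option autoImplicit false

open Finset Matrix

namespace Pool.Agent.K6.H5.CC

theorem t_LOC : S_LOC := by
  classical
  intro Λ _ _ d _ X M hM A hA
  have hmat : ∀ n m : Cf Λ d, mat A n m ≠ 0 → ∀ i ∈ X, m i = n i := by
    intro n m h i hi
    unfold mat at h
    by_cases hc : ∀ i, n i ≠ 0 → m i = n i
    · rw [if_pos hc] at h
      by_cases h0 : n i = 0
      · have h1 := hA _ h i hi
        unfold dif at h1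
        rw [if_pos h0] at h1
        rw [h1, h0]
      · exact hc i h0
    · rw [if_neg hc] at h
      exact absurd rfl h
  ext n n'
  rw [Matrix.mul_apply, Matrix.mul_apply]
  obtain ⟨p, hp⟩ : ∃ p : Cf Λ d, p = fun i => if i ∈ X then n i else n' i := ⟨_, rfl⟩
  obtain ⟨q, hq⟩ : ∃ q : Cf Λ d, q = fun i => if i ∈ X then n' i else n i := ⟨_, rfl⟩
  have hp1 : ∀ i ∈ X, p i = n i := fun i hi => by rw [hp]; simp [hi]
  have hp2 : ∀ i, i ∉ X → p i = n' i := fun i hi => by rw [hp]; simp [hi]
  have hq1 : ∀ i ∈ X, q i = n' i := fun i hi => by rw [hq]; simp [hi]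
  have hq2 : ∀ i, i ∉ X → q i = n i := fun i hi => by rw [hq]; simp [hi]
  have h1 : ∑ m, mat A n m * M m n' = mat A n p * M p n' := by
    refine Finset.sum_eq_single p (fun m _ hm => ?_) (fun h => absurd (Finset.mem_univ p) h)
    by_contra hne
    apply hm
    funext i
    by_cases hi : i ∈ X
    · rw [hp1 i hi]
      exact hmat n m (left_ne_zero_of_mul hne) i hi
    · rw [hp2 i hi]
      exact hM.off m n' (right_ne_zero_of_mul hne) i hi
  have h2 : ∑ m, M n m * mat A m n' = M n q * mat A q n' := by
    refine Finset.sum_eq_single q (fun m _ hm => ?_) (fun h => absurd (Finset.mem_univ q) h)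
    by_contra hne
    apply hm
    funext i
    by_cases hi : i ∈ X
    · rw [hq1 i hi]
      exact (hmat m n' (right_ne_zero_of_mul hne) i hi).symm
    · rw [hq2 i hi]
      exact (hM.off n m (left_ne_zero_of_mul hne) i hi).symm
  have h3 : M p n' = M n q :=
    hM.inv p n' n q (fun i hi => ⟨hp1 i hi, (hq1 i hi).symm⟩) hp2 (fun i hi => (hq2 i hi).symm)
  have h4 : mat A n p = mat A q n' := by
    have hdif : dif n p = dif q n' := by
      funext i
      unfold dif
      by_cases hi : i ∈ X
      · rw [hp1 i hi, hq1 i hi]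
        have e1 : (if n i = 0 then n i else 0) = 0 := by
          split_ifs with h
          · exact h
          · rfl
        have e2 : (if n' i = 0 then n' i else 0) = 0 := by
          split_ifs with h
          · exact h
          · rfl
        rw [e1, e2]
      · rw [hp2 i hi, hq2 i hi]
    have hiff : (∀ i, n i ≠ 0 → p i = n i) ↔ ∀ i, q i ≠ 0 → n' i = q i := by
      constructor
      · intro h i hqi
        by_cases hi : i ∈ X
        · exact (hq1 i hi).symm
        · rw [hq2 i hi] at hqi ⊢
          rw [← hp2 i hi]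
          exact h i hqi
      · intro h i hni
        by_cases hi : i ∈ X
        · exact hp1 i hi
        · rw [hp2 i hi]
          have := h i (by rw [hq2 i hi]; exact hni)
          rw [this, hq2 i hi]
    unfold mat
    rw [hdif]
    by_cases h : ∀ i, n i ≠ 0 → p i = n i
    · rw [if_pos h, if_pos (hiff.1 h)]
    · rw [if_neg h, if_neg (fun h' => h (hiff.2 h'))]
  rw [h1, h2, h3, h4, mul_comm]

end Pool.Agent.K6.H5.CC
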