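import Pool.Agent.K6.H5.CC.Stm

/-! # The piece MAT: the matrices `mat A` commute -/

set_option autoImplicit false

open Finset Matrix

namespace Pool.Agent.K6.H5.CC

namespace MAT

variable {Λ : Type} [Fintype Λ] [DecidableEq Λ] {d : ℕ} [NeZero d]

/-- `m` lies between `n` and `n'` -/
def Btw (n n' m : Cf Λ d) : Prop := (∀ i, n i ≠ 0 → m i = n i) ∧ (∀ i, m i ≠ 0 → n' i = m i)

/-- the complement of `m` between `n` and `n'` -/
def star (n n' m : Cf Λ d) : Cf Λ d := fun i =>
  if n i ≠ 0 then n i else if m i = 0 then n' i else 0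

theorem btw_star {n n' m : Cf Λ d} (h : Btw n n' m) : Btw n n' (star n n' m) := by
  obtain ⟨h1, h2⟩ := h
  refine ⟨fun i hi => by simp [star, hi], fun i hi => ?_⟩
  by_cases hn : n i = 0
  · by_cases hm : m i = 0
    · simp [star, hn, hm]
    · simp [star, hn, hm] at hi
  · have := h1 i hn
    have h3 := h2 i (by rw [this]; exact hn)
    simp [star, hn, h3, this]

theorem star_star {n n' m : Cf Λ d} (h : Btw n n' m) : star n n' (star n n' m) = m := by
  obtain ⟨h1, h2⟩ := h
  funext i
  by_cases hn : n i = 0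
  · by_cases hm : m i = 0
    · by_cases hn' : n' i = 0
      · simp [star, hn, hm, hn']
      · simp [star, hn, hm, hn']
    · have h3 := h2 i hm
      simp [star, hn, hm, h3]
  · have := h1 i hn
    simp [star, hn, this]

theorem dif_star {n n' m : Cf Λ d} (h : Btw n n' m) : dif n (star n n' m) = dif m n' := by
  obtain ⟨h1, h2⟩ := h
  funext i
  by_cases hn : n i = 0
  · by_cases hm : m i = 0
    · simp [star, dif, hn, hm]
    · simp [star, dif, hn, hm]
  · have := h1 i hn
    have hm : m i ≠ 0 := by rw [this]; exact hn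
    simp [dif, hn, hm]

theorem star_dif {n n' m : Cf Λ d} (h : Btw n n' m) : dif (star n n' m) n' = dif n m := by
  have h3 := dif_star (btw_star h)
  rw [star_star h] at h3
  exact h3.symm

open Classical in
theorem mul_eq (A B : Cf Λ d → ℂ) (n n' : Cf Λ d) : (mat A * mat B) n n' =
    ∑ m ∈ univ.filter (fun m => Btw n n' m), A (dif n m) * B (dif m n') := by
  rw [Matrix.mul_apply, Finset.sum_filter]
  refine Finset.sum_congr rfl fun m _ => ?_
  unfold mat
  by_cases h1 : ∀ i, n i ≠ 0 → m i = n i
  · by_cases h2 : ∀ i, m i ≠ 0 → n' i = m i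
    · have h3 : Btw n n' m := ⟨h1, h2⟩
      rw [if_pos h1, if_pos h2, if_pos h3]
    · have h3 : ¬ Btw n n' m := fun h => h2 h.2
      rw [if_neg h2, if_neg h3, mul_zero]
  · have h3 : ¬ Btw n n' m := fun h => h1 h.1
    rw [if_neg h1, if_neg h3, zero_mul]

theorem comm (A B : Cf Λ d → ℂ) : mat A * mat B = mat B * mat A := by
  classical
  ext n n'
  rw [mul_eq, mul_eq]
  refine Finset.sum_nbij' (fun m => star n n' m) (fun m => star n n' m) ?_ ?_ ?_ ?_ ?_
  · intro m hm
    simp only [Finset.mem_filter, Finset.mem_univ, true_and] at hm ⊢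
    exact btw_star hm
  · intro m hm
    simp only [Finset.mem_filter, Finset.mem_univ, true_and] at hm ⊢
    exact btw_star hm
  · intro m hm
    simp only [Finset.mem_filter, Finset.mem_univ, true_and] at hm
    exact star_star hm
  · intro m hm
    simp only [Finset.mem_filter, Finset.mem_univ, true_and] at hm
    exact star_star hm
  · intro m hm
    simp only [Finset.mem_filter, Finset.mem_univ, true_and] at hm
    rw [dif_star hm, star_dif hm, mul_comm]

theorem rb (A : Cf Λ d → ℂ) : RB (mat A) (∑ c, ‖A c‖) := by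
  classical
  intro n
  have h1 : ∑ n', ‖mat A n n'‖ =
      ∑ n' ∈ univ.filter (fun n' : Cf Λ d => ∀ i, n i ≠ 0 → n' i = n i), ‖A (dif n n')‖ := by
    rw [Finset.sum_filter]
    refine Finset.sum_congr rfl fun n' _ => ?_
    unfold mat
    split_ifs <;> simp
  have hinj : Set.InjOn (fun n' : Cf Λ d => dif n n')
      ((univ.filter (fun n' : Cf Λ d => ∀ i, n i ≠ 0 → n' i = n i) : Finset (Cf Λ d)) :
        Set (Cf Λ d)) := by
    intro x hx y hy hxy
    simp only [Finset.coe_filter, Finset.mem_univ, true_and, Set.mem_setOf_eq] at hx hy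
    funext i
    by_cases hn : n i = 0
    · have := congrFun hxy i
      simpa [dif, hn] using this
    · rw [hx i hn, hy i hn]
  rw [h1]
  calc ∑ n' ∈ univ.filter (fun n' : Cf Λ d => ∀ i, n i ≠ 0 → n' i = n i), ‖A (dif n n')‖
      = ∑ c ∈ (univ.filter (fun n' : Cf Λ d => ∀ i, n i ≠ 0 → n' i = n i)).image
          (fun n' => dif n n'), ‖A c‖ := by
        rw [Finset.sum_image hinj]
    _ ≤ ∑ c, ‖A c‖ :=
        Finset.sum_le_sum_of_subset_of_nonneg (Finset.subset_univ _) fun _ _ _ => norm_nonneg _

end MAT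

theorem t_MAT : S_MAT := by
  intro Λ _ _ d _ A B
  refine ⟨MAT.comm A B, ?_, ?_, ?_, MAT.rb A⟩
  · ext n n'
    simp only [mat, Matrix.add_apply, Pi.add_apply]
    split_ifs <;> simp
  · ext n n'
    simp only [mat, Matrix.neg_apply, Pi.neg_apply]
    split_ifs <;> simp
  · intro c
    have h : dif (vac : Cf Λ d) c = c := by
      funext i
      simp [dif, vac]
    simp only [mat, vac, ne_eq, not_true_eq_false, false_implies, implies_true, if_true]
    exact congrArg A h

end Pool.Agent.K6.H5.CC
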