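import Pool.Agent.K6.H5.CC.Stm
import Pool.Agent.TH235.PP.Defs

/-! # The torus: definitions and the statement of the piece TOR -/

set_option autoImplicit false

open Finset Matrix Pool.Agent.TH235.PP

namespace Pool.Agent.K6.H5.CC

open Classical in
/-- the energy `e` of the site at the corner of the box -/
noncomputable def onsite {d R : ℕ} (hR : 0 < R) (e : Fin d → ℝ) : BoxOp d R := fun p q =>
  if p = q then ((e (p (⟨0, hR⟩, ⟨0, hR⟩)) : ℝ) : ℂ) else 0

/-- the box at `u` -/
def box (R : ℕ) {L : ℕ} [NeZero L] (u : Site L) : Finset (Site L) :=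
  univ.image fun x : Fin R × Fin R => sh u x

def S_TOR : Prop := ∀ (d R L : ℕ) [NeZero d] [NeZero L] (hR : 0 < R) (e : Fin d → ℝ)
  (V : BoxOp d R) (v : ℝ), (∀ p, ∑ q, ‖V p q‖ ≤ v) →
    ham (onsite hR e + V) L = NN e + ∑ u : Site L, term V u ∧
    Inter (fun u : Site L => box R u) (fun u => term V u) (R ^ 2) v

end Pool.Agent.K6.H5.CC
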