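import Pool.Agent.TH235.PP.ThermalCrit
import Pool.Agent.K6.H5.CC.StmT

/-! # Weakly coupled systems on the torus: the ground state and the number of states -/

set_option autoImplicit false
set_option linter.unusedSectionVars false

open scoped BigOperators Matrix
open Finset Matrix Pool.Agent.TH235.PP
open Pool.Agent.Results.MP_953b23_mp.OverlapBoosting (GappedFamily)
open Pool.Agent.Results.MP_953b23_mp.ThermalCriterion (numStates energy FewStates energy_le)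

namespace Pool.Agent.K6.H5.CC.Main

open Pool.Agent.K6.H5.CC

section gen

variable {n : Type} [Fintype n] [DecidableEq n]

/-- left and right eigenvectors -/
theorem star_mulVec {H : Matrix n n ℂ} (hH : H.IsHermitian) {w : n → ℂ} {z : ℝ}
    (h : w ᵥ* H = (z : ℂ) • w) : H *ᵥ star w = (z : ℂ) • star w := by
  have h1 := congrArg star h
  rw [Matrix.star_vecMul, hH.eq, star_smul] at h1
  rw [h1]
  congr 1
  exact Complex.conj_ofReal z

theorem star_vecMul {H : Matrix n n ℂ} (hH : H.IsHermitian) {φ : n → ℂ} {z : ℝ}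
    (h : H *ᵥ φ = (z : ℂ) • φ) : (star φ) ᵥ* H = (z : ℂ) • star φ := by
  have h1 := congrArg star h
  rw [Matrix.star_mulVec, hH.eq, star_smul] at h1
  rw [h1]
  congr 1
  exact Complex.conj_ofReal z

theorem normSq_pos {ψ : n → ℂ} (h : ψ ≠ 0) : 0 < normSq ψ := by
  obtain ⟨i, hi⟩ := Function.ne_iff.1 h
  unfold normSq
  refine Finset.sum_pos' (fun i _ => by positivity) ⟨i, mem_univ _, ?_⟩
  have : 0 < ‖ψ i‖ := norm_pos_iff.2 hi
  positivity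

theorem normSq_smul' (c : ℂ) (ψ : n → ℂ) : normSq (c • ψ) = ‖c‖ ^ 2 * normSq ψ := by
  unfold normSq
  rw [Finset.mul_sum]
  refine Finset.sum_congr rfl fun i _ => ?_
  rw [Pi.smul_apply, smul_eq_mul, norm_mul, mul_pow]

/-- the ground state from a left eigenvector -/
theorem ground_of {H : Matrix n n ℂ} (hH : H.IsHermitian) {w : n → ℂ} {E : ℂ} {Δ : ℝ}
    (hE : E.im = 0) (hw : w ≠ 0) (h1 : w ᵥ* H = E • w)
    (h2 : ∀ u : n → ℂ, u ᵥ* H = E • u → ∃ c : ℂ, u = c • w)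
    (h3 : ∀ (z : ℝ) (u : n → ℂ), u ≠ 0 → u ᵥ* H = (z : ℂ) • u → z = E.re ∨ E.re + Δ ≤ z) :
    ∃ Ψ : n → ℂ, normSq Ψ = 1 ∧ IsGappedGround H Δ Ψ ∧ H *ᵥ Ψ = ((E.re : ℝ) : ℂ) • Ψ := by
  have hEr : E = ((E.re : ℝ) : ℂ) := Complex.ext rfl (by simpa using hE)
  have hsw : star w ≠ 0 := fun h => hw (star_eq_zero.1 h)
  have hp := normSq_pos hsw
  obtain ⟨a, ha⟩ : ∃ a : ℝ, a = Real.sqrt (normSq (star w)) := ⟨_, rfl⟩
  have ha0 : 0 < a := by rw [ha]; exact Real.sqrt_pos.2 hp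
  have ha2 : a ^ 2 = normSq (star w) := by rw [ha]; exact Real.sq_sqrt hp.le
  have hac : ((a : ℝ) : ℂ) ≠ 0 := by exact_mod_cast ha0.ne'
  rw [hEr] at h1 h2
  have h4 : H *ᵥ star w = ((E.re : ℝ) : ℂ) • star w := star_mulVec hH h1
  have h5 : H *ᵥ (((a : ℝ) : ℂ)⁻¹ • star w) = ((E.re : ℝ) : ℂ) • (((a : ℝ) : ℂ)⁻¹ • star w) := by
    rw [Matrix.mulVec_smul, h4, smul_comm]
  refine ⟨((a : ℝ) : ℂ)⁻¹ • star w, ?_, ⟨E.re, h5, ?_, ?_⟩, h5⟩
  · rw [normSq_smul', norm_inv, Complex.norm_real, Real.norm_of_nonneg ha0.le, ← ha2]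
    field_simp
  · intro φ hφ
    obtain ⟨c, hc⟩ := h2 (star φ) (star_vecMul hH hφ)
    refine ⟨star c * ((a : ℝ) : ℂ), ?_⟩
    have h6 : φ = star c • star w := by
      rw [← star_smul, ← hc, star_star]
    rw [h6, smul_smul, mul_assoc, mul_inv_cancel₀ hac, mul_one]
  · intro E' φ hφ hEφ
    exact h3 E' (star φ) (fun h => hφ (star_eq_zero.1 h)) (star_vecMul hH hEφ)

end gen

section torus

variable {d R : ℕ} [NeZero d]

theorem rb_mono {Λ : Type} [Fintype Λ] [DecidableEq Λ]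
    {M : Matrix (Cf Λ d) (Cf Λ d) ℂ} {a b : ℝ} (h : RB M a) (hab : a ≤ b) : RB M b :=
  fun n => (h n).trans hab

theorem exp_lt_two_pow {L : ℕ} (hL : 0 < L) (d : ℕ) :
    Real.exp ((L : ℝ) ^ 2 / 2) * Real.exp ((L : ℝ) ^ 2 / 2) * Real.sqrt ((d : ℝ) ^ (L ^ 2)) <
      2 ^ ((4 + 4 * d) * L ^ 2) := by
  have hLr : (0 : ℝ) < L := by exact_mod_cast hL
  have h1 : (d : ℝ) ≤ Real.exp d := (by linarith [Real.add_one_le_exp (d : ℝ)])
  have h2 : Real.sqrt ((d : ℝ) ^ (L ^ 2)) ≤ Real.exp ((d : ℝ) * L ^ 2 / 2) := by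
    rw [← Real.sqrt_sq (Real.exp_pos ((d : ℝ) * L ^ 2 / 2)).le]
    refine Real.sqrt_le_sqrt ?_
    rw [← Real.exp_nat_mul]
    calc (d : ℝ) ^ (L ^ 2) ≤ Real.exp d ^ (L ^ 2) := pow_le_pow_left₀ (by positivity) h1 _
      _ = Real.exp (((2 : ℕ) : ℝ) * ((d : ℝ) * L ^ 2 / 2)) := by
        rw [← Real.exp_nat_mul]
        congr 1
        push_cast
        ring
  have h3 : (2 : ℝ) ^ ((4 + 4 * d) * L ^ 2) =
      Real.exp ((((4 + 4 * d) * L ^ 2 : ℕ) : ℝ) * Real.log 2) := by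
    rw [Real.exp_nat_mul, Real.exp_log (by norm_num)]
  have h4 : (0.6931471803 : ℝ) < Real.log 2 := Real.log_two_gt_d9
  have h5 : (0 : ℝ) ≤ d := Nat.cast_nonneg d
  calc Real.exp ((L : ℝ) ^ 2 / 2) * Real.exp ((L : ℝ) ^ 2 / 2) * Real.sqrt ((d : ℝ) ^ (L ^ 2)) ≤
      Real.exp ((L : ℝ) ^ 2 / 2) * Real.exp ((L : ℝ) ^ 2 / 2) * Real.exp ((d : ℝ) * L ^ 2 / 2) :=
        mul_le_mul_of_nonneg_left h2 (by positivity)
    _ = Real.exp ((L : ℝ) ^ 2 * (1 + d / 2)) := by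
      rw [← Real.exp_add, ← Real.exp_add]
      congr 1
      ring
    _ < 2 ^ ((4 + 4 * d) * L ^ 2) := by
      rw [h3]
      refine Real.exp_lt_exp.2 ?_
      push_cast
      have h6 : (0 : ℝ) < (L : ℝ) ^ 2 := by positivity
      have h7 : (1 + (d : ℝ) / 2) < (4 + 4 * d) * Real.log 2 := by nlinarith
      calc (L : ℝ) ^ 2 * (1 + d / 2) < (L : ℝ) ^ 2 * ((4 + 4 * d) * Real.log 2) :=
            mul_lt_mul_of_pos_left h7 h6
        _ = (4 + 4 * d) * (L : ℝ) ^ 2 * Real.log 2 := by ring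

theorem occ_le {Λ : Type} [Fintype Λ] [DecidableEq Λ] {e : Fin d → ℝ} {g : ℝ} (he0 : e 0 = 0)
    (he : ∀ α, α ≠ 0 → g ≤ e α) (n : Cf Λ d) : g * #(occ n) ≤ en e n := by
  unfold en occ
  rw [Finset.card_filter]
  push_cast
  rw [Finset.mul_sum]
  refine Finset.sum_le_sum fun i _ => ?_
  by_cases h : n i = 0
  · rw [if_neg (not_not.2 h), h, he0, mul_zero]
  · rw [if_pos h, mul_one]
    exact he _ h

/-- everything about one torus -/
theorem one_torus (hMAT : S_MAT) (hEXB : S_EXB) (hEXA : S_EXA) (hRSB : S_RSB) (hFIX : S_FIX)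
    (hREL : S_REL) (hSPE : S_SPE) (hCNT : S_CNT) (hCTC : S_CTC) (hTOR : S_TOR)
    (hR : 0 < R) {e : Fin d → ℝ} {g : ℝ} (hg : 0 < g) (he0 : e 0 = 0)
    (he : ∀ α, α ≠ 0 → g ≤ e α) {V : BoxOp d R}
    (hV : ∀ p, ∑ q, ‖V p q‖ ≤ g / (100 * (R : ℝ) ^ 4)) (L : ℕ) [NeZero L]
    (hH : (ham (onsite hR e + V) L).IsHermitian) :
    ∃ Ψ : (Site L → Fin d) → ℂ, normSq Ψ = 1 ∧
      IsGappedGround (ham (onsite hR e + V) L) (g / 2) Ψ ∧
      ∀ m : ℕ, (numStates hH (energy (ham (onsite hR e + V) L) Ψ + m) : ℝ) ≤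
        (((4 + 4 * d) * L ^ 2 : ℕ) : ℝ) *
          ((1 + L ^ 2 * d : ℕ) : ℝ) ^ ⌊4 * ((m : ℝ) + 1) / g⌋₊ := by
  classical
  have hL : 0 < L := Nat.pos_of_ne_zero (NeZero.ne L)
  obtain ⟨hsum, hI⟩ := hTOR d R L hR e V _ hV
  have hR1 : (1 : ℝ) ≤ ((R ^ 2 : ℕ) : ℝ) := by exact_mod_cast hI.one_le
  have hv : g / (100 * (R : ℝ) ^ 4) ≤ g / (100 * ((R ^ 2 : ℕ) : ℝ) ^ 2) := by
    rw [Nat.cast_pow, ← pow_mul]
  obtain ⟨A, hA, hAfix⟩ := hFIX (Site L) d (Site L) _ _ _ _ hI e g hg he0 he hv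
  have hrel := hREL (Site L) d (Site L) _ _ _ _ hI e g hg he0 he hv A hA hAfix
  rw [← hsum] at hrel
  obtain ⟨E, hE⟩ : ∃ E : ℂ, E = G (fun u : Site L => term V u) A vac := ⟨_, rfl⟩
  rw [← hE] at hrel
  have hS1 : Ex A * Ex (-A) = 1 := (hEXA (Site L) d A A).2.1
  have hS2 : Ex (-A) * Ex A = 1 := (hEXA (Site L) d A A).2.2.1
  obtain ⟨him, hne, hleft, huniq, hgap⟩ := hSPE (Site L) d (ham (onsite hR e + V) L) (Ex A)
    (Ex (-A)) E e g hH hS1 hS2 hg he0 he hrel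
  obtain ⟨Ψ, hn, hgr, heig⟩ := ground_of hH him hne hleft huniq hgap
  refine ⟨Ψ, hn, hgr, fun m => ?_⟩
  have hen : energy (ham (onsite hR e + V) L) Ψ = E.re := by
    unfold energy
    rw [heig, ip_smul_right, ip_self_one Ψ hn, mul_one, Complex.ofReal_re]
  have hlow := (energy_le (Ψ := fun L' => if h : L' = L then h ▸ Ψ else 0) hH
    (half_pos hg) (by simpa using hn) (by simpa using hgr)).1
  have hlow' : ∀ j, E.re ≤ hH.eigenvalues j := by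
    intro j
    have := hlow j
    simp only [dite_true] at this
    rwa [hen] at this
  -- bounds of the exponentials
  have hcard : Fintype.card (Site L) = L ^ 2 := by
    rw [Fintype.card_prod, ZMod.card, sq]
  have hsumA : ∑ c, ‖A c‖ ≤ (L : ℝ) ^ 2 / 2 := by
    refine ((hRSB (Site L) d A _ hA).2.1).trans ?_
    rw [hcard]
    push_cast
    have h1 : (1 : ℝ) / (2 * (R : ℝ) ^ 2) ≤ 1 / 2 := by
      refine one_div_le_one_div_of_le (by norm_num) ?_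
      have : (1 : ℝ) ≤ (R : ℝ) ^ 2 := by exact_mod_cast hI.one_le
      linarith
    calc (L : ℝ) ^ 2 * (1 / (2 * (R : ℝ) ^ 2)) ≤ (L : ℝ) ^ 2 * (1 / 2) :=
          mul_le_mul_of_nonneg_left h1 (by positivity)
      _ = (L : ℝ) ^ 2 / 2 := by ring
  have b1 : RB (Ex A) (Real.exp ((L : ℝ) ^ 2 / 2)) :=
    (hEXB (Site L) d _ _ (rb_mono (hMAT (Site L) d A A).2.2.2.2 hsumA)).1
  have b2 : RB (Ex (-A)) (Real.exp ((L : ℝ) ^ 2 / 2)) := by
    refine (hEXB (Site L) d _ _ (rb_mono (hMAT (Site L) d (-A) A).2.2.2.2 ?_)).1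
    simpa using hsumA
  have hEr : E = ((E.re : ℝ) : ℂ) := Complex.ext rfl (by simpa using him)
  have he' : ∀ α, 0 ≤ e α := fun α => by
    by_cases h : α = 0
    · rw [h, he0]
    · exact hg.le.trans (he α h)
  have hcnt := hCNT (Site L) d (ham (onsite hR e + V) L) (Ex A) (Ex (-A)) E.re e hH _ _
    ((4 + 4 * d) * L ^ 2) m hS1 hS2 he0 he' (by rw [← hEr]; exact hrel) hlow' b1 b2 (by
      rw [Fintype.card_fun, Fintype.card_fin, hcard]
      push_cast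
      exact_mod_cast exp_lt_two_pow hL d)
  have hlo : #(univ.filter fun n : Cf (Site L) d => en e n < 4 * ((m : ℝ) + 1)) ≤
      (1 + L ^ 2 * d) ^ ⌊4 * ((m : ℝ) + 1) / g⌋₊ := by
    refine le_trans (Finset.card_le_card ?_)
      ((hCTC (Site L) d ⌊4 * ((m : ℝ) + 1) / g⌋₊).trans (by rw [hcard]))
    intro n hn'
    rw [mem_filter] at hn' ⊢
    refine ⟨mem_univ _, Nat.le_floor ?_⟩
    rw [le_div_iff₀ hg]
    have := occ_le he0 he n
    linarith [hn'.2]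
  unfold numStates
  rw [hen]
  calc ((#(univ.filter fun j => hH.eigenvalues j ≤ E.re + m) : ℕ) : ℝ) ≤
      (((4 + 4 * d) * L ^ 2 * #(univ.filter fun n : Cf (Site L) d =>
        en e n < 4 * ((m : ℝ) + 1)) : ℕ) : ℝ) := by exact_mod_cast hcnt
    _ ≤ (((4 + 4 * d) * L ^ 2 * (1 + L ^ 2 * d) ^ ⌊4 * ((m : ℝ) + 1) / g⌋₊ : ℕ) : ℝ) := by
      exact_mod_cast Nat.mul_le_mul_left _ hlo
    _ = _ := by rw [Nat.cast_mul, Nat.cast_pow]

end torus

end Pool.Agent.K6.H5.CC.Main
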