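import Pool.Agent.K6.H5.CC.Stm

/-!
# Piece NNA: the part without interaction
-/

set_option autoImplicit false

open Finset Matrix

namespace Pool.Agent.K6.H5.CC

namespace NNA

theorem en_sub {Λ : Type} [Fintype Λ] [DecidableEq Λ] {d : ℕ} [NeZero d] (e : Fin d → ℝ)
    (he : e 0 = 0) (n n' : Cf Λ d) (h : ∀ i, n i ≠ 0 → n' i = n i) :
    en e n' - en e n = en e (dif n n') := by
  unfold en dif
  rw [← Finset.sum_sub_distrib]
  refine Finset.sum_congr rfl fun i _ => ?_
  by_cases hi : n i = 0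
  · simp [hi, he]
  · simp [hi, h i hi, he]

theorem comm {Λ : Type} [Fintype Λ] [DecidableEq Λ] {d : ℕ} [NeZero d] (e : Fin d → ℝ)
    (he : e 0 = 0) (A : Cf Λ d → ℂ) :
    mat A * NN e - NN e * mat A = mat (fun c => (en e c : ℂ) * A c) := by
  ext n n'
  rw [Matrix.sub_apply]
  unfold NN
  rw [Matrix.mul_diagonal, Matrix.diagonal_mul]
  unfold mat
  by_cases h : ∀ i, n i ≠ 0 → n' i = n i
  · rw [if_pos h, if_pos h]
    beta_reduce
    rw [← en_sub e he n n' h]
    push_cast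
    ring
  · rw [if_neg h, if_neg h]
    ring

end NNA

theorem t_NNA (h1 : S_MAT) (h2 : S_CNJ) : S_NNA := by
  intro Λ _ _ d _ e he A
  have hc := NNA.comm e he A
  refine ⟨hc, ?_⟩
  have h := h2 Λ d (mat A) (NN e) (mat (fun c => (en e c : ℂ) * A c)) hc
    (h1 Λ d A (fun c => (en e c : ℂ) * A c)).1
  unfold Th Ex
  rw [(h1 Λ d A A).2.2.1]
  exact h

end Pool.Agent.K6.H5.CC
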