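import Pool.Agent.K6.H5.CC.Stm

/-!
# Piece NUM: the numerical bound
-/

set_option autoImplicit false

open Finset Matrix

namespace Pool.Agent.K6.H5.CC

namespace NUM

theorem const_le (K : ℝ) (hK : 1 ≤ K) (L : ℕ) (hL : 2 ≤ L) :
    K ≤ Real.exp (Real.log K / Real.log 2 * Real.log L) := by
  have h2 : 0 < Real.log 2 := Real.log_pos (by norm_num)
  have hLr : (2 : ℝ) ≤ L := by exact_mod_cast hL
  have hl : Real.log 2 ≤ Real.log L := Real.log_le_log (by norm_num) hLr
  have hk : 0 ≤ Real.log K := Real.log_nonneg hK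
  calc K = Real.exp (Real.log K) := (Real.exp_log (by linarith)).symm
    _ ≤ _ := by
      apply Real.exp_le_exp.2
      calc Real.log K = Real.log K / Real.log 2 * Real.log 2 := by field_simp
        _ ≤ _ := mul_le_mul_of_nonneg_left hl (div_nonneg hk h2.le)

theorem sq_eq (L : ℕ) (hL : 2 ≤ L) : ((L : ℝ)) ^ 2 = Real.exp (2 * Real.log L) := by
  have hLr : (0 : ℝ) < L := by
    have : (2 : ℝ) ≤ L := by exact_mod_cast hL
    linarith
  rw [two_mul, Real.exp_add, Real.exp_log hLr, sq]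

theorem mul_sq_le (K : ℝ) (hK : 1 ≤ K) (L : ℕ) (hL : 2 ≤ L) :
    K * (L : ℝ) ^ 2 ≤ Real.exp ((Real.log K / Real.log 2 + 2) * Real.log L) := by
  rw [add_mul, Real.exp_add, ← sq_eq L hL]
  exact mul_le_mul_of_nonneg_right (const_le K hK L hL) (by positivity)

end NUM

theorem t_NUM : S_NUM := by
  intro d g hg
  have h2 : 0 < Real.log 2 := Real.log_pos (by norm_num)
  have hd : (0 : ℝ) ≤ d := Nat.cast_nonneg d
  set a : ℝ := Real.log (4 + 4 * d) / Real.log 2 + 2 with ha
  set b : ℝ := Real.log (1 + d) / Real.log 2 + 2 with hb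
  have ha0 : 0 ≤ a := by
    have : 0 ≤ Real.log (4 + 4 * (d : ℝ)) := Real.log_nonneg (by linarith)
    positivity
  have hb0 : 0 ≤ b := by
    have : 0 ≤ Real.log (1 + (d : ℝ)) := Real.log_nonneg (by linarith)
    positivity
  refine ⟨a + b * (4 / g), fun L m hL => ?_⟩
  have hLr : (2 : ℝ) ≤ L := by exact_mod_cast hL
  have hl : 0 ≤ Real.log L := Real.log_nonneg (by linarith)
  have hm : (0 : ℝ) ≤ m := Nat.cast_nonneg m
  have h1 : (((4 + 4 * d) * L ^ 2 : ℕ) : ℝ) ≤ Real.exp (a * Real.log L) := by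
    have := NUM.mul_sq_le (4 + 4 * (d : ℝ)) (by linarith) L hL
    push_cast
    exact this
  have h3 : ((1 + L ^ 2 * d : ℕ) : ℝ) ≤ Real.exp (b * Real.log L) := by
    refine le_trans ?_ (NUM.mul_sq_le (1 + (d : ℝ)) (by linarith) L hL)
    push_cast
    nlinarith [mul_nonneg hd (sq_nonneg (L : ℝ))]
  set F : ℕ := ⌊4 * ((m : ℝ) + 1) / g⌋₊ with hF
  have hFle : (F : ℝ) ≤ 4 * ((m : ℝ) + 1) / g := Nat.floor_le (by positivity)
  have h4 : ((1 + L ^ 2 * d : ℕ) : ℝ) ^ F ≤ Real.exp (F * (b * Real.log L)) := by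
    rw [Real.exp_nat_mul]
    exact pow_le_pow_left₀ (Nat.cast_nonneg _) h3 F
  calc (((4 + 4 * d) * L ^ 2 : ℕ) : ℝ) * ((1 + L ^ 2 * d : ℕ) : ℝ) ^ F
      ≤ Real.exp (a * Real.log L) * Real.exp (F * (b * Real.log L)) :=
        mul_le_mul h1 h4 (by positivity) (Real.exp_pos _).le
    _ = Real.exp (a * Real.log L + F * (b * Real.log L)) := (Real.exp_add _ _).symm
    _ ≤ _ := by
      apply Real.exp_le_exp.2
      have h5 : a * Real.log L ≤ a * Real.log L * (m + 1) := by
        have : 0 ≤ a * Real.log L := mul_nonneg ha0 hl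
        nlinarith
      have h6 : (F : ℝ) * (b * Real.log L) ≤ 4 * ((m : ℝ) + 1) / g * (b * Real.log L) :=
        mul_le_mul_of_nonneg_right hFle (mul_nonneg hb0 hl)
      calc a * Real.log L + F * (b * Real.log L)
          ≤ a * Real.log L * (m + 1) + 4 * ((m : ℝ) + 1) / g * (b * Real.log L) := add_le_add h5 h6
        _ = (a + b * (4 / g)) * (m + 1) * Real.log L := by ring

end Pool.Agent.K6.H5.CC
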