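import Pool.Agent.K6.H5.CC.Stm

set_option autoImplicit false

open Finset Matrix

namespace Pool.Agent.K6.H5.CC

namespace PMP

/-- A nonzero entry of `mat (pt i A)` occupies the empty site `i`. -/
theorem entry {Λ : Type} [Fintype Λ] [DecidableEq Λ] {d : ℕ} [NeZero d] (i : Λ) (A : Cf Λ d → ℂ)
    (n m : Cf Λ d) (h : mat (pt i A) n m ≠ 0) : n i = 0 ∧ m i ≠ 0 := by
  unfold mat pt at h
  by_cases h1 : ∀ j, n j ≠ 0 → m j = n j
  · rw [if_pos h1] at h
    by_cases h2 : dif n m i = 0
    · rw [if_pos h2] at h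
      exact absurd rfl h
    · unfold dif at h2
      by_cases h3 : n i = 0
      · rw [if_pos h3] at h2
        exact ⟨h3, h2⟩
      · rw [if_neg h3] at h2
        exact absurd rfl h2
  · rw [if_neg h1] at h
    exact absurd rfl h

end PMP

open PMP in
theorem t_PMP : S_PMP := by
  intro Λ _ _ d _ i M hM A B
  ext n n'
  rw [Matrix.mul_apply, Matrix.zero_apply]
  refine Finset.sum_eq_zero fun m' _ => ?_
  by_cases h3 : mat (pt i B) m' n' = 0
  · rw [h3, mul_zero]
  · rw [Matrix.mul_apply, Finset.sum_mul]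
    refine Finset.sum_eq_zero fun m _ => ?_
    by_cases h1 : mat (pt i A) n m = 0
    · rw [h1, zero_mul, zero_mul]
    · by_cases h2 : M m m' = 0
      · rw [h2, mul_zero, zero_mul]
      · exact absurd (entry i B m' n' h3).1 ((hM m m' h2) ▸ (entry i A n m h1).2)

end Pool.Agent.K6.H5.CC
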