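import Pool.Agent.K6.H5.CC.Stm

/-!
# Piece RBA (helper84): row bounds of sums and products
-/

set_option autoImplicit false

open Finset Matrix

namespace Pool.Agent.K6.H5.CC

theorem t_RBA : S_RBA := by
  intro Λ _ _ d _ M N a b hM hN
  have hb : 0 ≤ b := le_trans (Finset.sum_nonneg fun _ _ => norm_nonneg _) (hN vac)
  have ha : 0 ≤ a := le_trans (Finset.sum_nonneg fun _ _ => norm_nonneg _) (hM vac)
  have hrow : ∀ n, ∑ n', ‖(M * N) n n'‖ ≤ (∑ n', ‖M n n'‖) * b := by
    intro n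
    calc ∑ n', ‖(M * N) n n'‖ ≤ ∑ n', ∑ k, ‖M n k‖ * ‖N k n'‖ := by
          refine Finset.sum_le_sum fun n' _ => ?_
          rw [Matrix.mul_apply]
          refine (norm_sum_le _ _).trans (Finset.sum_le_sum fun k _ => ?_)
          rw [norm_mul]
      _ = ∑ k, ‖M n k‖ * ∑ n', ‖N k n'‖ := by
          rw [Finset.sum_comm]
          refine Finset.sum_congr rfl fun k _ => ?_
          rw [Finset.mul_sum]
      _ ≤ ∑ k, ‖M n k‖ * b := Finset.sum_le_sum fun k _ =>
          mul_le_mul_of_nonneg_left (hN k) (norm_nonneg _)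
      _ = (∑ n', ‖M n n'‖) * b := by rw [Finset.sum_mul]
  refine ⟨?_, ?_, ?_, hrow, ha, ?_⟩
  · intro n
    calc ∑ n', ‖(M + N) n n'‖ ≤ ∑ n', (‖M n n'‖ + ‖N n n'‖) :=
          Finset.sum_le_sum fun n' _ => by
            rw [Matrix.add_apply]
            exact norm_add_le _ _
      _ = ∑ n', ‖M n n'‖ + ∑ n', ‖N n n'‖ := Finset.sum_add_distrib
      _ ≤ a + b := add_le_add (hM n) (hN n)
  · intro n
    calc ∑ n', ‖(M - N) n n'‖ ≤ ∑ n', (‖M n n'‖ + ‖N n n'‖) :=
          Finset.sum_le_sum fun n' _ => by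
            rw [Matrix.sub_apply]
            exact norm_sub_le _ _
      _ = ∑ n', ‖M n n'‖ + ∑ n', ‖N n n'‖ := Finset.sum_add_distrib
      _ ≤ a + b := add_le_add (hM n) (hN n)
  · intro n
    exact (hrow n).trans (mul_le_mul_of_nonneg_right (hM n) hb)
  · intro n
    have h1 : ∀ n', ‖(1 : Matrix (Cf Λ d) (Cf Λ d) ℂ) n n'‖ = if n = n' then 1 else 0 := by
      intro n'
      rw [Matrix.one_apply]
      split_ifs <;> simp
    simp only [h1]
    rw [Finset.sum_ite_eq]
    simp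

end Pool.Agent.K6.H5.CC
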