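import Pool.Agent.K6.H5.CC.Stm

/-! Piece RED. -/

set_option autoImplicit false

open Finset Matrix

namespace Pool.Agent.K6.H5.CC

theorem t_RED (_h1 : S_MAT) (h2 : S_LOC) (h3 : S_EXA) : S_RED := by
  classical
  intro Λ _ _ d _ X M hM A
  obtain ⟨B, hB⟩ : ∃ B : Cf Λ d → ℂ, B = fun c => if ∃ i ∈ X, c i ≠ 0 then 0 else A c := ⟨_, rfl⟩
  have hA : A = res X A + B := by
    funext c
    rw [Pi.add_apply, hB]
    unfold res
    by_cases h : ∃ i ∈ X, c i ≠ 0
    · simp only [if_pos h, add_zero]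
    · simp only [if_neg h, zero_add]
  have hcom : mat B * M = M * mat B := by
    refine h2 Λ d X M hM B fun c hc i hi => ?_
    by_contra hne
    apply hc
    rw [hB]
    exact if_pos ⟨i, hi, hne⟩
  have hEx : Ex B * M = M * Ex B := by
    have hC : Commute (mat B) M := hcom
    exact (hC.exp_left).eq
  have e1 : Ex A = Ex (res X A) * Ex B := by
    conv_lhs => rw [hA]
    exact (h3 Λ d (res X A) B).1
  have e2 : Ex (-A) = Ex (-B) * Ex (-(res X A)) := by
    conv_lhs => rw [hA, neg_add_rev]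
    exact (h3 Λ d (-B) (-(res X A))).1
  have e3 : Ex B * Ex (-B) = 1 := (h3 Λ d B B).2.1
  unfold Th
  rw [e1, e2]
  calc Ex (res X A) * Ex B * M * (Ex (-B) * Ex (-(res X A))) =
      Ex (res X A) * (Ex B * M) * (Ex (-B) * Ex (-(res X A))) := by noncomm_ring
    _ = Ex (res X A) * (M * Ex B) * (Ex (-B) * Ex (-(res X A))) := by rw [hEx]
    _ = Ex (res X A) * M * (Ex B * Ex (-B)) * Ex (-(res X A)) := by noncomm_ring
    _ = Ex (res X A) * M * Ex (-(res X A)) := by rw [e3, mul_one]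

end Pool.Agent.K6.H5.CC
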