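import Pool.Agent.K6.H5.CC.Stm

/-!
# `S_REL` (written by helper58)

After the similarity transformation the Hamiltonian minus the energy without interaction is
relatively small.
-/

set_option autoImplicit false

open Finset Matrix

namespace Pool.Agent.K6.H5.CC

namespace REL

variable {Λ : Type} [Fintype Λ] [DecidableEq Λ] {d : ℕ} [NeZero d]

/-- the indicator function of `n` -/
def dl (n : Cf Λ d) : Cf Λ d → ℂ := fun c => if c = n then 1 else 0

theorem vac_dl (h1 : S_MAT) (n : Cf Λ d) (M : Matrix (Cf Λ d) (Cf Λ d) ℂ) (n' : Cf Λ d) :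
    (mat (dl n) * M) vac n' = M n n' := by
  rw [Matrix.mul_apply]
  have h := (h1 Λ d (dl n) (dl n)).2.2.2.1
  simp [h, dl]

theorem Th_add (A : Cf Λ d → ℂ) (M N : Matrix (Cf Λ d) (Cf Λ d) ℂ) :
    Th A (M + N) = Th A M + Th A N := by
  simp [Th, Matrix.mul_add, Matrix.add_mul]

theorem Th_sum (A : Cf Λ d → ℂ) {J : Type} [Fintype J]
    (V : J → Matrix (Cf Λ d) (Cf Λ d) ℂ) : Th A (∑ j, V j) = ∑ j, Th A (V j) := by
  simp [Th, Matrix.mul_sum, Matrix.sum_mul]

omit [DecidableEq Λ] in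
theorem en_ge (e : Fin d → ℝ) (g : ℝ) (e0 : e 0 = 0) (he : ∀ α, α ≠ 0 → g ≤ e α)
    (n : Cf Λ d) : g * #(occ n) ≤ en e n := by
  have h1 : en e n = ∑ i ∈ occ n, e (n i) := by
    unfold en occ
    rw [Finset.sum_filter]
    refine Finset.sum_congr rfl fun i _ => ?_
    by_cases h : n i = 0
    · simp [h, e0]
    · simp [h]
  rw [h1]
  have h2 : ∑ i ∈ occ n, g ≤ ∑ i ∈ occ n, e (n i) := by
    refine Finset.sum_le_sum fun i hi => he _ ?_
    simpa [occ] using hi
  simpa [mul_comm] using h2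

theorem card_meet {J : Type} [Fintype J] (X : J → Finset Λ) (r : ℕ)
    (hm : ∀ i : Λ, #(univ.filter fun j => i ∈ X j) ≤ r) (n : Cf Λ d) :
    #(univ.filter fun j : J => ∃ i ∈ X j, n i ≠ 0) ≤ r * #(occ n) := by
  classical
  have h1 : (univ.filter fun j : J => ∃ i ∈ X j, n i ≠ 0) ⊆
      (occ n).biUnion fun i => univ.filter fun j => i ∈ X j := by
    intro j hj
    simp only [mem_filter, mem_univ, true_and] at hj
    obtain ⟨i, hi, hn⟩ := hj
    simp only [mem_biUnion, mem_filter, mem_univ, true_and]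
    exact ⟨i, by simpa [occ] using hn, hi⟩
  refine (Finset.card_le_card h1).trans (Finset.card_biUnion_le.trans ?_)
  refine (Finset.sum_le_sum fun i _ => hm i).trans ?_
  simp [mul_comm]

/-- the commutator of an indicator with a transformed local operator -/
theorem comm_zero (h3 : S_LOC) (h4 : S_EXA) (n : Cf Λ d) (X : Finset Λ)
    (M : Matrix (Cf Λ d) (Cf Λ d) ℂ) (hM : LocOp X M) (A : Cf Λ d → ℂ)
    (hX : ¬ ∃ i ∈ X, n i ≠ 0) :
    mat (dl n) * Th A M - Th A M * mat (dl n) = 0 := by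
  have e1 : mat (dl n) * M = M * mat (dl n) := by
    refine h3 Λ d X M hM (dl n) ?_
    intro c hc i hi
    by_contra hci
    apply hX
    refine ⟨i, hi, ?_⟩
    have : c = n := by
      by_contra hcn
      exact hc (by simp [dl, hcn])
    rwa [this] at hci
  have e2 : Ex A * mat (dl n) = mat (dl n) * Ex A := (h4 Λ d A (dl n)).2.2.2.1
  have e3 : Ex (-A) * mat (dl n) = mat (dl n) * Ex (-A) := (h4 Λ d (-A) (dl n)).2.2.2.1
  rw [sub_eq_zero]
  unfold Th
  calc mat (dl n) * (Ex A * M * Ex (-A)) = (mat (dl n) * Ex A) * M * Ex (-A) := by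
        simp only [Matrix.mul_assoc]
    _ = Ex A * (mat (dl n) * M) * Ex (-A) := by rw [← e2]; simp only [Matrix.mul_assoc]
    _ = Ex A * M * (mat (dl n) * Ex (-A)) := by rw [e1]; simp only [Matrix.mul_assoc]
    _ = Ex A * M * Ex (-A) * mat (dl n) := by rw [← e3]; simp only [Matrix.mul_assoc]

theorem comm_le (h1 : S_MAT) (h2 : S_RBA) (h5 : S_THB) (h6 : S_RED) (h7 : S_RSB)
    (n : Cf Λ d) (X : Finset Λ) (r : ℕ) (hr : 1 ≤ r) (hX : #X ≤ r)
    (M : Matrix (Cf Λ d) (Cf Λ d) ℂ) (v : ℝ) (hM : LocOp X M) (hv : RB M v)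
    (A : Cf Λ d → ℂ) (hA : Sz A (1 / (2 * r))) :
    ∑ n', ‖(mat (dl n) * Th A M - Th A M * mat (dl n)) vac n'‖ ≤ 2 * Real.exp 1 * v := by
  have s1 : ∑ c, ‖res X A c‖ ≤ 1 / 2 := by
    refine ((h7 Λ d A _ hA).1 X).trans ?_
    have hr0 : (0 : ℝ) < r := by exact_mod_cast hr
    calc (#X : ℝ) * (1 / (2 * r)) ≤ r * (1 / (2 * r)) := by
          refine mul_le_mul_of_nonneg_right (by exact_mod_cast hX) (by positivity)
      _ = 1 / 2 := by field_simp
  have s2 : RB (Th A M) (Real.exp 1 * v) := by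
    rw [h6 Λ d X M hM A]
    have := (h5 Λ d (res X A) M (1 / 2) v s1 hv).1
    rwa [show (2 : ℝ) * (1 / 2) = 1 by norm_num] at this
  have s3 : RB (mat (dl n)) 1 := by
    have := (h1 Λ d (dl n) (dl n)).2.2.2.2
    have hs : ∑ c, ‖dl n c‖ = 1 := by
      rw [Finset.sum_eq_single n]
      · simp [dl]
      · intro c _ hc
        simp [dl, hc]
      · intro h; exact absurd (mem_univ _) h
    rwa [hs] at this
  have s4 := (h2 Λ d _ _ _ _ s3 s2).2.2.1
  have s5 := (h2 Λ d _ _ _ _ s2 s3).2.2.1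
  have s6 := (h2 Λ d _ _ _ _ s4 s5).2.1
  refine (s6 vac).trans (le_of_eq ?_)
  ring

end REL

open REL in
theorem t_REL (h1 : S_MAT) (h2 : S_RBA) (h3 : S_LOC) (h4 : S_EXA) (h5 : S_THB) (h6 : S_RED)
    (h7 : S_RSB) (h8 : S_NNA) : S_REL := by
  intro Λ _ _ d _ J _ X V r v hI e g hg e0 he hvg A hA hfix n
  classical
  set E : ℂ := G V A vac with hE
  set a : Matrix (Cf Λ d) (Cf Λ d) ℂ := mat (dl n) with ha
  set B : Cf Λ d → ℂ := fun c => (en e c : ℂ) * A c with hB
  set W : Matrix (Cf Λ d) (Cf Λ d) ℂ := mat B + ∑ j, Th A (V j) - E • (1 : Matrix _ _ ℂ) with hW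
  have hT : Th A (NN e + ∑ j, V j) = NN e + mat B + ∑ j, Th A (V j) := by
    rw [Th_add, Th_sum, (h8 Λ d e e0 A).2]
  have hterm : ∀ n' : Cf Λ d, Th A (NN e + ∑ j, V j) n n' - NN e n n' -
      (if n = n' then E else 0) = W n n' := by
    intro n'
    rw [hT, hW]
    simp only [Matrix.add_apply, Matrix.sub_apply, Matrix.smul_apply, Matrix.one_apply,
      smul_eq_mul, mul_ite, mul_one, mul_zero]
    ring
  have hrow : ∀ c, W vac c = 0 := by
    intro c
    have m1 : mat B vac c = B c := (h1 Λ d B B).2.2.2.1 c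
    have m2 : (∑ j, Th A (V j)) vac c = G V A c := by
      rw [Matrix.sum_apply]
      rfl
    rw [hW]
    simp only [Matrix.add_apply, Matrix.sub_apply, Matrix.smul_apply, Matrix.one_apply,
      smul_eq_mul, mul_ite, mul_one, mul_zero]
    rw [m1, m2]
    by_cases hc : vac = c
    · subst hc
      have : en e (vac : Cf Λ d) = 0 := by simp [en, vac, e0]
      simp [hB, this, hE]
    · rw [if_neg hc, hB]
      have := hfix c (Ne.symm hc)
      simp only
      rw [this]
      ring
  have hcom : a * W - W * a = ∑ j, (a * Th A (V j) - Th A (V j) * a) := by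
    have c1 : a * mat B = mat B * a := (h1 Λ d (dl n) B).1
    rw [hW]
    simp only [Matrix.mul_add, Matrix.add_mul, Matrix.mul_sub, Matrix.sub_mul, Matrix.mul_sum,
      Matrix.sum_mul, Matrix.mul_smul, Matrix.smul_mul, Matrix.mul_one, Matrix.one_mul,
      Finset.sum_sub_distrib, c1]
    abel
  have hWn : ∀ n', W n n' = ∑ j, (a * Th A (V j) - Th A (V j) * a) vac n' := by
    intro n'
    have e1 : (a * W) vac n' = W n n' := vac_dl h1 n W n'
    have e2 : (W * a) vac n' = 0 := by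
      rw [Matrix.mul_apply]
      simp [hrow]
    have e3 : (a * W - W * a) vac n' = W n n' := by
      rw [Matrix.sub_apply, e1, e2, sub_zero]
    rw [← e3, hcom, Matrix.sum_apply]
  have hsum : ∑ n', ‖W n n'‖ ≤
      ∑ j, ∑ n', ‖(a * Th A (V j) - Th A (V j) * a) vac n'‖ := by
    rw [Finset.sum_comm]
    refine Finset.sum_le_sum fun n' _ => ?_
    rw [hWn n']
    exact norm_sum_le _ _
  have hj : ∀ j, ∑ n', ‖(a * Th A (V j) - Th A (V j) * a) vac n'‖ ≤
      if (∃ i ∈ X j, n i ≠ 0) then 2 * Real.exp 1 * v else 0 := by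
    intro j
    split_ifs with hjX
    · exact comm_le h1 h2 h5 h6 h7 n (X j) r hI.one_le (hI.card j) (V j) v (hI.loc j) (hI.bd j)
        A hA
    · rw [ha, comm_zero h3 h4 n (X j) (V j) (hI.loc j) A hjX]
      simp
  have htot : ∑ j, (if (∃ i ∈ X j, n i ≠ 0) then 2 * Real.exp 1 * v else 0) =
      #(univ.filter fun j : J => ∃ i ∈ X j, n i ≠ 0) * (2 * Real.exp 1 * v) := by
    rw [← Finset.sum_filter, Finset.sum_const, nsmul_eq_mul]
  simp only [hterm]
  refine hsum.trans ((Finset.sum_le_sum fun j _ => hj j).trans ?_)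
  rw [htot]
  have hen := en_ge e g e0 he n
  rcases isEmpty_or_nonempty J with hJ | ⟨⟨j0⟩⟩
  · simp only [Finset.univ_eq_empty, Finset.filter_empty, Finset.card_empty, Nat.cast_zero,
      zero_mul]
    have : 0 ≤ g * #(occ n) := by positivity
    linarith
  · have hv0 : 0 ≤ v := le_trans (Finset.sum_nonneg fun _ _ => norm_nonneg _) (hI.bd j0 vac)
    have hcard : (#(univ.filter fun j : J => ∃ i ∈ X j, n i ≠ 0) : ℝ) ≤ r * #(occ n) := by
      exact_mod_cast card_meet X r hI.mult n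
    have hr1 : (1 : ℝ) ≤ r := by exact_mod_cast hI.one_le
    have hr0 : (0 : ℝ) < r := by linarith
    have hvr : v * r ≤ g / 100 := by
      have h : v * (100 * r ^ 2) ≤ g := by
        rwa [le_div_iff₀ (by positivity)] at hvg
      have h' : v * r * 100 ≤ v * (100 * r ^ 2) := by
        have : v * r ≤ v * r ^ 2 := by
          refine mul_le_mul_of_nonneg_left ?_ hv0
          nlinarith
        nlinarith
      linarith
    have hexp : Real.exp 1 ≤ 3 := by
      have := Real.exp_one_lt_d9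
      linarith
    calc (#(univ.filter fun j : J => ∃ i ∈ X j, n i ≠ 0) : ℝ) * (2 * Real.exp 1 * v)
        ≤ (r * #(occ n)) * (2 * 3 * v) := by
          refine mul_le_mul hcard ?_ (by positivity) (by positivity)
          have : Real.exp 1 * v ≤ 3 * v := mul_le_mul_of_nonneg_right hexp hv0
          linarith
      _ = 6 * (v * r) * #(occ n) := by ring
      _ ≤ 6 * (g / 100) * #(occ n) := by
          refine mul_le_mul_of_nonneg_right ?_ (by positivity)
          linarith
      _ ≤ g * #(occ n) / 2 := by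
          have : 0 ≤ g * #(occ n) := by positivity
          nlinarith
      _ ≤ en e n / 2 := by linarith

end Pool.Agent.K6.H5.CC
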