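import Pool.Agent.K6.H5.CC.Stm

/-!
# The entries of the row of the vacuum which occupy a site outside the support
-/

set_option autoImplicit false
set_option linter.unusedSectionVars false

open Finset Matrix

namespace Pool.Agent.K6.H5.CC

namespace RowP

variable {Λ : Type} [Fintype Λ] [DecidableEq Λ] {d : ℕ} [NeZero d]

/-- the exponential of a matrix of square zero -/
theorem row_exp_sq_zero (P : Matrix (Cf Λ d) (Cf Λ d) ℂ) (h : P * P = 0) :
    NormedSpace.exp P = 1 + P := by
  rw [NormedSpace.exp_eq_tsum ℂ]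
  simp only
  rw [tsum_eq_sum (s := Finset.range 2)]
  · simp [Finset.sum_range_succ]
  · intro k hk
    have hk2 : 2 ≤ k := by
      by_contra hc
      exact hk (Finset.mem_range.2 (by omega))
    obtain ⟨m, rfl⟩ := Nat.exists_eq_add_of_le hk2
    rw [pow_add, pow_two, h, zero_mul, smul_zero]

/-- the indicator of the configurations which are empty at `i` -/
noncomputable def rowD (Λ : Type) [Fintype Λ] [DecidableEq Λ] (d : ℕ) [NeZero d] (i : Λ) :
    Matrix (Cf Λ d) (Cf Λ d) ℂ :=
  Matrix.diagonal fun n => if n i = 0 then 1 else 0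

theorem row_comm (i : Λ) (K : Matrix (Cf Λ d) (Cf Λ d) ℂ)
    (hK : ∀ n n', K n n' ≠ 0 → n i = n' i) : Commute (rowD Λ d i) K := by
  unfold rowD
  show Matrix.diagonal _ * K = K * Matrix.diagonal _
  ext n n'
  rw [Matrix.diagonal_mul, Matrix.mul_diagonal]
  by_cases h : K n n' = 0
  · rw [h, mul_zero, zero_mul]
  · rw [hK n n' h, mul_comm]

theorem row_np (i : Λ) (A : Cf Λ d → ℂ) (n n' : Cf Λ d) (h : mat (np i A) n n' ≠ 0) :
    n i = n' i := by
  unfold mat at h
  split_ifs at h with hc
  · by_cases h0 : n i = 0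
    · have h1 : dif n n' i = 0 := by
        by_contra h2
        apply h
        unfold np
        rw [if_neg h2]
      unfold dif at h1
      rw [if_pos h0] at h1
      rw [h0, h1]
    · exact (hc i h0).symm
  · exact absurd rfl h

theorem row_split (i : Λ) (A : Cf Λ d → ℂ) : A = np i A + pt i A := by
  funext c
  by_cases h : c i = 0 <;> simp [np, pt, h]

end RowP

open RowP

theorem t_ROW (h1 : S_MAT) (h2 : S_PMP) (h3 : S_EXA) : S_ROW := by
  intro Λ _ _ d _ i M hM A c hc
  have hPP : mat (pt i A) * mat (pt i A) = 0 := by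
    have := h2 Λ d i 1 (by
      intro n n' hn
      by_cases he : n = n'
      · rw [he]
      · exact absurd (Matrix.one_apply_ne he) hn) A A
    rwa [mul_one] at this
  have hPMP : mat (pt i A) * M * mat (pt i A) = 0 := h2 Λ d i M hM A A
  have hneg : mat (-(pt i A)) = -mat (pt i A) := (h1 Λ d (pt i A) (pt i A)).2.2.1
  have hE1 : Ex (pt i A) = 1 + mat (pt i A) := row_exp_sq_zero _ hPP
  have hE2 : Ex (-(pt i A)) = 1 - mat (pt i A) := by
    unfold Ex
    rw [hneg, row_exp_sq_zero _ (by rw [neg_mul_neg, hPP]), sub_eq_add_neg]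
  have hA : Ex A = Ex (np i A) * Ex (pt i A) := by
    conv_lhs => rw [row_split i A]
    exact (h3 Λ d (np i A) (pt i A)).1
  have hA' : Ex (-A) = Ex (-(pt i A)) * Ex (-(np i A)) := by
    conv_lhs => rw [row_split i A]
    rw [neg_add_rev]
    exact (h3 Λ d (-(pt i A)) (-(np i A))).1
  have hTh : Th A M = Th (np i A) M +
      Th (np i A) (mat (pt i A) * M - M * mat (pt i A)) := by
    unfold Th
    rw [hA, hA', hE1, hE2]
    have e1 : (1 + mat (pt i A)) * M * (1 - mat (pt i A)) =
        M + (mat (pt i A) * M - M * mat (pt i A)) := by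
      have : (1 + mat (pt i A)) * M * (1 - mat (pt i A)) =
        M + (mat (pt i A) * M - M * mat (pt i A)) - mat (pt i A) * M * mat (pt i A) := by
        noncomm_ring
      rw [this, hPMP, sub_zero]
    calc Ex (np i A) * (1 + mat (pt i A)) * M * ((1 - mat (pt i A)) * Ex (-(np i A)))
        = Ex (np i A) * ((1 + mat (pt i A)) * M * (1 - mat (pt i A))) * Ex (-(np i A)) := by
          noncomm_ring
      _ = _ := by
          rw [e1]
          noncomm_ring
  rw [hTh, Matrix.add_apply]
  have hD : Commute (rowD Λ d i) (Th (np i A) M) := by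
    unfold Th Ex
    refine Commute.mul_right (Commute.mul_right ?_ (row_comm i M hM)) ?_
    · exact (row_comm i _ (row_np i A)).exp_right
    · rw [(h1 Λ d (np i A) (np i A)).2.2.1]
      exact (row_comm i _ (row_np i A)).neg_right.exp_right
  have h0 : Th (np i A) M vac c = 0 := by
    have := congrFun (congrFun hD.eq vac) c
    unfold rowD at this
    rw [Matrix.diagonal_mul, Matrix.mul_diagonal, if_neg hc, mul_zero] at this
    have hv : (vac : Cf Λ d) i = 0 := rfl
    rw [if_pos hv, one_mul] at this
    exact this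
  rw [h0, zero_add]

end Pool.Agent.K6.H5.CC
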