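import Pool.Agent.K6.H5.CC.Stm

/-!
# Piece RSB (helper84): sums over the coefficients
-/

set_option autoImplicit false

open Finset Matrix

namespace Pool.Agent.K6.H5.CC

theorem t_RSB : S_RSB := by
  classical
  intro Λ _ _ d _ A b hA
  obtain ⟨hA0, hA⟩ := hA
  have hocc : ∀ (c : Cf Λ d) (i : Λ), c i ≠ 0 → (1 : ℝ) ≤ (#(occ c) : ℝ) := by
    intro c i hi
    have h1 : 0 < #(occ c) := Finset.card_pos.mpr ⟨i, by simp [occ, hi]⟩
    exact_mod_cast h1
  have hone : ∀ i : Λ, ∑ c ∈ univ.filter (fun c : Cf Λ d => c i ≠ 0), ‖A c‖ ≤ b := by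
    intro i
    refine le_trans (Finset.sum_le_sum fun c hc => ?_) (hA i)
    have h1 := hocc c i (mem_filter.mp hc).2
    nlinarith [norm_nonneg (A c)]
  have hX : ∀ X : Finset Λ, ∑ c, ‖res X A c‖ ≤ #X * b := by
    intro X
    calc ∑ c, ‖res X A c‖ ≤ ∑ c : Cf Λ d, ∑ i ∈ X, (if c i ≠ 0 then ‖A c‖ else 0) := by
          refine Finset.sum_le_sum fun c _ => ?_
          have hnn : ∀ i ∈ X, 0 ≤ (if c i ≠ 0 then ‖A c‖ else 0) := by
            intro i _
            split_ifs
            · exact norm_nonneg _
            · exact le_rfl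
          by_cases h : ∃ i ∈ X, c i ≠ 0
          · obtain ⟨i, hi, hci⟩ := h
            have h1 : res X A c = A c := by
              unfold res
              rw [if_pos ⟨i, hi, hci⟩]
            rw [h1]
            have h2 := Finset.single_le_sum hnn hi
            rw [if_pos hci] at h2
            exact h2
          · have h1 : res X A c = 0 := by
              unfold res
              rw [if_neg h]
            rw [h1, norm_zero]
            exact Finset.sum_nonneg hnn
      _ = ∑ i ∈ X, ∑ c ∈ univ.filter (fun c : Cf Λ d => c i ≠ 0), ‖A c‖ := by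
          rw [Finset.sum_comm]
          refine Finset.sum_congr rfl fun i _ => ?_
          rw [Finset.sum_filter]
      _ ≤ ∑ i ∈ X, b := Finset.sum_le_sum fun i _ => hone i
      _ = #X * b := by rw [Finset.sum_const, nsmul_eq_mul]
  refine ⟨hX, ?_, ?_⟩
  · have h1 := hX univ
    rw [Finset.card_univ] at h1
    refine le_trans (le_of_eq ?_) h1
    refine Finset.sum_congr rfl fun c _ => ?_
    by_cases h : ∃ i ∈ (univ : Finset Λ), c i ≠ 0
    · unfold res
      rw [if_pos h]
    · unfold res
      rw [if_neg h]
      have h2 : c = vac := by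
        funext i
        by_contra h3
        exact h ⟨i, mem_univ _, h3⟩
      rw [h2, hA0]
  · intro J _ X r hr i
    calc ∑ j, ∑ c, ‖pt i (res (X j) A) c‖
        = ∑ c, ∑ j, ‖pt i (res (X j) A) c‖ := Finset.sum_comm
      _ ≤ ∑ c : Cf Λ d, (if c i ≠ 0 then (r : ℝ) * ((#(occ c) : ℝ) * ‖A c‖) else 0) := by
          refine Finset.sum_le_sum fun c _ => ?_
          by_cases hci : c i = 0
          · rw [if_neg (not_not.mpr hci)]
            refine le_of_eq (Finset.sum_eq_zero fun j _ => ?_)
            unfold pt
            rw [if_pos hci, norm_zero]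
          · rw [if_pos hci]
            have h1 : ∀ j, ‖pt i (res (X j) A) c‖ =
                if (∃ k ∈ X j, c k ≠ 0) then ‖A c‖ else 0 := by
              intro j
              unfold pt res
              rw [if_neg hci]
              by_cases h : ∃ k ∈ X j, c k ≠ 0
              · rw [if_pos h, if_pos h]
              · rw [if_neg h, if_neg h, norm_zero]
            simp only [h1]
            rw [← Finset.sum_filter, Finset.sum_const, nsmul_eq_mul]
            have h2 : #(univ.filter fun j => ∃ k ∈ X j, c k ≠ 0) ≤ r * #(occ c) := by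
              have h3 : (univ.filter fun j => ∃ k ∈ X j, c k ≠ 0) ⊆
                  (occ c).biUnion fun k => univ.filter fun j => k ∈ X j := by
                intro j hj
                obtain ⟨k, hk, hck⟩ := (mem_filter.mp hj).2
                exact mem_biUnion.mpr ⟨k, by simp [occ, hck], by simp [hk]⟩
              refine (Finset.card_le_card h3).trans (Finset.card_biUnion_le.trans ?_)
              calc ∑ k ∈ occ c, #(univ.filter fun j => k ∈ X j) ≤ ∑ k ∈ occ c, r :=
                    Finset.sum_le_sum fun k _ => hr k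
                _ = r * #(occ c) := by rw [Finset.sum_const, smul_eq_mul, mul_comm]
            have h4 : (#(univ.filter fun j => ∃ k ∈ X j, c k ≠ 0) : ℝ) ≤
                (r : ℝ) * (#(occ c) : ℝ) := by exact_mod_cast h2
            calc (#(univ.filter fun j => ∃ k ∈ X j, c k ≠ 0) : ℝ) * ‖A c‖
                ≤ ((r : ℝ) * (#(occ c) : ℝ)) * ‖A c‖ :=
                  mul_le_mul_of_nonneg_right h4 (norm_nonneg _)
              _ = _ := by ring
      _ = (r : ℝ) * ∑ c ∈ univ.filter (fun c : Cf Λ d => c i ≠ 0), ((#(occ c) : ℝ) * ‖A c‖) := by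
          rw [Finset.mul_sum, Finset.sum_filter]
      _ ≤ r * b := mul_le_mul_of_nonneg_left (hA i) (Nat.cast_nonneg _)

end Pool.Agent.K6.H5.CC
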