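import Pool.Agent.K6.H5.CC.Stm

/-!
# Piece SPE: the spectrum near the bottom from the relative bound
-/

set_option autoImplicit false

open Finset Matrix

namespace Pool.Agent.K6.H5.CC

namespace SPE

set_option linter.unusedSectionVars false

variable {Λ : Type} [Fintype Λ] [DecidableEq Λ] {d : ℕ} [NeZero d]

theorem en_vac (e : Fin d → ℝ) (he : e 0 = 0) : en e (vac : Cf Λ d) = 0 := by
  simp [en, vac, he]

theorem en_ge (e : Fin d → ℝ) (g : ℝ) (hg : 0 < g) (he : e 0 = 0) (h : ∀ α, α ≠ 0 → g ≤ e α)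
    (n : Cf Λ d) (hn : n ≠ vac) : g ≤ en e n := by
  obtain ⟨i, hi⟩ := Function.ne_iff.1 hn
  have h1 : e (n i) ≤ ∑ i, e (n i) :=
    Finset.single_le_sum (f := fun i => e (n i)) (fun j _ => by
      show 0 ≤ e (n j)
      by_cases hj : n j = 0
      · rw [hj, he]
      · exact le_trans hg.le (h _ hj)) (mem_univ i)
  exact le_trans (h _ hi) h1

/-- the row estimate for an eigenvector -/
theorem row_est (e : Fin d → ℝ) (T : Matrix (Cf Λ d) (Cf Λ d) ℂ) (E : ℂ) (hT : Rel e T E)
    (u : Cf Λ d → ℂ) (z : ℂ) (hu : u ᵥ* T = z • u) :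
    ∑ n, ‖((en e n : ℝ) : ℂ) - (z - E)‖ * ‖u n‖ ≤ ∑ n, ‖u n‖ * (en e n / 2) := by
  have h1 : ∀ n', ∑ n, u n * (T n n' - NN e n n' - (if n = n' then E else 0)) =
      -((((en e n' : ℝ) : ℂ) - (z - E)) * u n') := by
    intro n'
    have h2 : ∑ n, u n * T n n' = z * u n' := by
      have := congrFun hu n'
      simpa [Matrix.vecMul, dotProduct] using this
    have h3 : ∑ n, u n * NN e n n' = u n' * ((en e n' : ℝ) : ℂ) := by
      rw [Finset.sum_eq_single n']
      · simp [NN]
      · intro b _ hb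
        simp [NN, Matrix.diagonal_apply_ne _ hb]
      · intro h; exact absurd (mem_univ _) h
    have h4 : ∑ n, u n * (if n = n' then E else 0) = u n' * E := by
      simp
    have h5 : ∑ n, u n * (T n n' - NN e n n' - (if n = n' then E else 0)) =
        ∑ n, u n * T n n' - ∑ n, u n * NN e n n' - ∑ n, u n * (if n = n' then E else 0) := by
      rw [← Finset.sum_sub_distrib, ← Finset.sum_sub_distrib]
      exact Finset.sum_congr rfl fun n _ => by ring
    rw [h5, h2, h3, h4]
    ring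
  calc ∑ n, ‖((en e n : ℝ) : ℂ) - (z - E)‖ * ‖u n‖
      = ∑ n', ‖∑ n, u n * (T n n' - NN e n n' - (if n = n' then E else 0))‖ :=
        Finset.sum_congr rfl fun n _ => by rw [h1 n, norm_neg, norm_mul]
    _ ≤ ∑ n', ∑ n, ‖u n‖ * ‖T n n' - NN e n n' - (if n = n' then E else 0)‖ :=
        Finset.sum_le_sum fun n' _ => (norm_sum_le _ _).trans
          (le_of_eq (Finset.sum_congr rfl fun n _ => norm_mul _ _))
    _ = ∑ n, ‖u n‖ * ∑ n', ‖T n n' - NN e n n' - (if n = n' then E else 0)‖ := by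
        rw [Finset.sum_comm]
        exact Finset.sum_congr rfl fun n _ => by rw [Finset.mul_sum]
    _ ≤ ∑ n, ‖u n‖ * (en e n / 2) :=
        Finset.sum_le_sum fun n _ => mul_le_mul_of_nonneg_left (hT n) (norm_nonneg _)

/-- the row of the vacuum -/
theorem row_vac (e : Fin d → ℝ) (he : e 0 = 0) (T : Matrix (Cf Λ d) (Cf Λ d) ℂ) (E : ℂ)
    (hT : Rel e T E) (n' : Cf Λ d) : T vac n' = if (vac : Cf Λ d) = n' then E else 0 := by
  have h1 := hT vac
  rw [en_vac e he, zero_div] at h1
  have h2 : ∀ n' ∈ (univ : Finset (Cf Λ d)),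
      ‖T vac n' - NN e vac n' - (if (vac : Cf Λ d) = n' then E else 0)‖ = 0 :=
    (Finset.sum_eq_zero_iff_of_nonneg fun _ _ => norm_nonneg _).1
      (le_antisymm h1 (Finset.sum_nonneg fun _ _ => norm_nonneg _))
  have h3 := norm_eq_zero.1 (h2 n' (mem_univ _))
  have h4 : NN e (vac : Cf Λ d) n' = 0 := by
    unfold NN
    by_cases h : (vac : Cf Λ d) = n'
    · subst h
      rw [Matrix.diagonal_apply_eq, en_vac e he]
      simp
    · exact Matrix.diagonal_apply_ne _ h
  rw [h4, sub_zero] at h3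
  exact sub_eq_zero.1 h3

open scoped ComplexOrder in
/-- the eigenvalue of a Hermitian matrix is real -/
theorem real_of_eig (H : Matrix (Cf Λ d) (Cf Λ d) ℂ) (hH : H.IsHermitian) (x : Cf Λ d → ℂ)
    (hx : x ≠ 0) (E : ℂ) (h : x ᵥ* H = E • x) : E.im = 0 := by
  have h1 : star ((x ᵥ* H) ⬝ᵥ star x) = (x ᵥ* H) ⬝ᵥ star x := by
    rw [← Matrix.star_dotProduct_star, star_star, Matrix.star_vecMul, hH.eq, ← Matrix.dotProduct_mulVec]
  have h2 : (x ᵥ* H) ⬝ᵥ star x = E * (x ⬝ᵥ star x) := by
    rw [h, smul_dotProduct, smul_eq_mul]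
  have h3 : star (x ⬝ᵥ star x) = x ⬝ᵥ star x := by
    rw [← Matrix.star_dotProduct_star, star_star]
  have h4 : x ⬝ᵥ star x ≠ 0 := by
    intro h0
    exact hx (dotProduct_self_star_eq_zero.1 h0)
  rw [h2, star_mul', h3] at h1
  have h5 : star E = E := mul_right_cancel₀ h4 h1
  exact Complex.conj_eq_iff_im.1 h5

end SPE

open SPE in
theorem t_SPE : S_SPE := by
  intro Λ _ _ d _ H S S' E e g hH hSS hSS' hg he hge hT
  have hkey : ∀ (w : Cf Λ d → ℂ) (z : ℂ), w ᵥ* H = z • w →
      (w ᵥ* S') ᵥ* (S * H * S') = z • (w ᵥ* S') := by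
    intro w z hw
    rw [Matrix.vecMul_vecMul, ← Matrix.mul_assoc, ← Matrix.mul_assoc, hSS', Matrix.one_mul,
      ← Matrix.vecMul_vecMul, hw, Matrix.smul_vecMul]
  have hback : ∀ w : Cf Λ d → ℂ, (w ᵥ* S') ᵥ* S = w := by
    intro w
    rw [Matrix.vecMul_vecMul, hSS', Matrix.vecMul_one]
  have hvac : S vac ᵥ* H = E • S vac := by
    have h1 : S * H = (S * H * S') * S := by
      rw [Matrix.mul_assoc (S * H), hSS', Matrix.mul_one]
    funext n'
    have h2 : (S vac ᵥ* H) n' = (S * H) vac n' := rfl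
    rw [h2, h1, Matrix.mul_apply]
    simp only [row_vac e he _ E hT]
    simp
  have hne : S vac ≠ 0 := by
    intro h0
    have h1 : (S * S') vac vac = 0 := by
      rw [Matrix.mul_apply]
      exact Finset.sum_eq_zero fun k _ => by rw [h0]; simp
    rw [hSS] at h1
    simp at h1
  have hre : E.im = 0 := real_of_eig H hH _ hne E hvac
  refine ⟨hre, hne, hvac, ?_, ?_⟩
  · intro w hw
    have h1 := row_est e _ E hT (w ᵥ* S') E (hkey w E hw)
    have h2 : ∀ n : Cf Λ d, n ≠ vac → (w ᵥ* S') n = 0 := by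
      have h3 : ∑ n, ‖(w ᵥ* S') n‖ * (en e n / 2) ≤ 0 := by
        have h4 : ∑ n, ‖((en e n : ℝ) : ℂ) - (E - E)‖ * ‖(w ᵥ* S') n‖ =
            ∑ n, ‖(w ᵥ* S') n‖ * (en e n / 2) + ∑ n, ‖(w ᵥ* S') n‖ * (en e n / 2) := by
          rw [← Finset.sum_add_distrib]
          refine Finset.sum_congr rfl fun n _ => ?_
          have h5 : 0 ≤ en e n := by
            by_cases hn : n = vac
            · rw [hn, en_vac e he]
            · exact hg.le.trans (en_ge e g hg he hge n hn)
          rw [sub_self, sub_zero, Complex.norm_real, Real.norm_of_nonneg h5]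
          ring
        linarith
      intro n hn
      have h5 : ∀ n ∈ (univ : Finset (Cf Λ d)), 0 ≤ ‖(w ᵥ* S') n‖ * (en e n / 2) := by
        intro n _
        have h5 : 0 ≤ en e n := by
          by_cases hn : n = vac
          · rw [hn, en_vac e he]
          · exact hg.le.trans (en_ge e g hg he hge n hn)
        positivity
      have h6 := (Finset.sum_eq_zero_iff_of_nonneg h5).1 (le_antisymm h3 (Finset.sum_nonneg h5))
        n (mem_univ _)
      have h7 := en_ge e g hg he hge n hn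
      have h8 : en e n / 2 ≠ 0 := by
        have h9 : 0 < en e n / 2 := by linarith
        exact h9.ne'
      exact norm_eq_zero.1 ((mul_eq_zero.1 h6).resolve_right h8)
    refine ⟨(w ᵥ* S') vac, ?_⟩
    rw [← hback w]
    funext n'
    rw [hback w]
    conv_lhs => rw [← hback w]
    show ∑ n : Cf Λ d, (w ᵥ* S') n * S n n' = (w ᵥ* S') vac * S vac n'
    rw [Finset.sum_eq_single vac]
    · intro n _ hn
      rw [h2 n hn, zero_mul]
    · intro h; exact absurd (mem_univ _) h
  · intro z w hw hz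
    by_cases hzE : z = E.re
    · exact Or.inl hzE
    right
    have h1 := row_est e _ E hT (w ᵥ* S') z (hkey w z hz)
    have hE : (z : ℂ) - E = ((z - E.re : ℝ) : ℂ) := by
      apply Complex.ext
      · simp
      · simp [hre]
    have hu : w ᵥ* S' ≠ 0 := by
      intro h0
      apply hw
      rw [← hback w, h0, Matrix.zero_vecMul]
    obtain ⟨n, hn, hn'⟩ : ∃ n, (w ᵥ* S') n ≠ 0 ∧ |en e n - (z - E.re)| ≤ en e n / 2 := by
      by_contra hcon
      push Not at hcon
      obtain ⟨n0, hn0⟩ := Function.ne_iff.1 hu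
      have h3 : ∑ n : Cf Λ d, ‖(w ᵥ* S') n‖ * (en e n / 2) <
          ∑ n : Cf Λ d, ‖((en e n : ℝ) : ℂ) - ((z : ℂ) - E)‖ * ‖(w ᵥ* S') n‖ := by
        have hh : ∀ n : Cf Λ d, ‖((en e n : ℝ) : ℂ) - ((z : ℂ) - E)‖ = |en e n - (z - E.re)| := by
          intro n
          rw [hE, ← Complex.ofReal_sub, Complex.norm_real, Real.norm_eq_abs]
        refine Finset.sum_lt_sum (fun n _ => ?_) ⟨n0, mem_univ _, ?_⟩
        · rw [hh]
          by_cases hn : (w ᵥ* S') n = 0
          · rw [hn]; simp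
          · rw [mul_comm]
            exact mul_le_mul_of_nonneg_right (hcon n hn).le (norm_nonneg _)
        · rw [hh, mul_comm]
          exact mul_lt_mul_of_pos_right (hcon n0 hn0) (norm_pos_iff.2 hn0)
      exact absurd h1 (not_le.2 h3)
    have hnv : n ≠ vac := by
      intro h0
      rw [h0, en_vac e he] at hn'
      have h4 : z - E.re = 0 := by
        have h5 : |0 - (z - E.re)| = 0 := le_antisymm (by linarith) (abs_nonneg _)
        have h6 := abs_eq_zero.1 h5
        linarith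
      exact hzE (by linarith)
    have h7 := en_ge e g hg he hge n hnv
    have h8 := (abs_le.1 hn').2
    linarith

end Pool.Agent.K6.H5.CC
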