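import Mathlib

/-!
# Weakly coupled quantum spin systems: definitions and statements of the pieces

Configurations `n : Λ → Fin d`, vacuum `vac = 0`.  All matrices act on ROW vectors (from the right):
row `n` of `M` is `e_n M`.  `mat A = ∑_c A c a_c`, where `a_c` creates the configuration `c` on empty
sites: `e_n a_c = e_{n + c}` if `n` and `c` occupy disjoint sets of sites, and `0` otherwise.  The
`mat A` commute.  For `H = ∑_i e(n_i) + ∑_j V_j` with small local `V_j` there is `A` with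
`e_vac exp(A) H exp(-A) = E e_vac` (a fixed point), and then the rows of
`W = exp(A) H exp(-A) - E - ∑_i e(n_i)` are small compared to `∑_i e(n_i)`.
-/

set_option autoImplicit false

open Finset Matrix

namespace Pool.Agent.K6.H5.CC

/-- configurations -/
abbrev Cf (Λ : Type) (d : ℕ) : Type := Λ → Fin d

section defs

variable {Λ : Type} [Fintype Λ] [DecidableEq Λ] {d : ℕ} [NeZero d]

/-- the vacuum -/
def vac : Cf Λ d := fun _ => 0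

/-- the occupied sites -/
def occ (n : Cf Λ d) : Finset Λ := univ.filter fun i => n i ≠ 0

/-- the part of `n'` at the sites which are empty in `n` -/
def dif (n n' : Cf Λ d) : Cf Λ d := fun i => if n i = 0 then n' i else 0

/-- `∑_c A c a_c`: the row `n` has the entry `A c` at `n + c` -/
def mat (A : Cf Λ d → ℂ) : Matrix (Cf Λ d) (Cf Λ d) ℂ := fun n n' =>
  if ∀ i, n i ≠ 0 → n' i = n i then A (dif n n') else 0

/-- the rows have `ℓ¹` norm at most `b` -/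
def RB (M : Matrix (Cf Λ d) (Cf Λ d) ℂ) (b : ℝ) : Prop := ∀ n, ∑ n', ‖M n n'‖ ≤ b

/-- the size of `A`: `sup_i ∑_(c with c i ≠ 0) |c| |A c| ≤ b` -/
def Sz (A : Cf Λ d → ℂ) (b : ℝ) : Prop :=
  A vac = 0 ∧ ∀ i : Λ, ∑ c ∈ univ.filter (fun c : Cf Λ d => c i ≠ 0), (#(occ c) : ℝ) * ‖A c‖ ≤ b

/-- `M` acts on the sites of `X` only -/
structure LocOp (X : Finset Λ) (M : Matrix (Cf Λ d) (Cf Λ d) ℂ) : Prop where
  off : ∀ n n', M n n' ≠ 0 → ∀ i, i ∉ X → n i = n' i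
  inv : ∀ n n' m m', (∀ i ∈ X, n i = m i ∧ n' i = m' i) → (∀ i, i ∉ X → n i = n' i) →
    (∀ i, i ∉ X → m i = m' i) → M n n' = M m m'

/-- `exp A` -/
noncomputable def Ex (A : Cf Λ d → ℂ) : Matrix (Cf Λ d) (Cf Λ d) ℂ := NormedSpace.exp (mat A)

/-- `exp(A) M exp(-A)` -/
noncomputable def Th (A : Cf Λ d → ℂ) (M : Matrix (Cf Λ d) (Cf Λ d) ℂ) :
    Matrix (Cf Λ d) (Cf Λ d) ℂ := Ex A * M * Ex (-A)

open Classical in
/-- the terms which meet `X` -/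
noncomputable def res (X : Finset Λ) (A : Cf Λ d → ℂ) : Cf Λ d → ℂ := fun c =>
  if ∃ i ∈ X, c i ≠ 0 then A c else 0

/-- the terms which occupy `i` -/
def pt (i : Λ) (A : Cf Λ d → ℂ) : Cf Λ d → ℂ := fun c => if c i = 0 then 0 else A c

/-- the terms which do not occupy `i` -/
def np (i : Λ) (A : Cf Λ d → ℂ) : Cf Λ d → ℂ := fun c => if c i = 0 then A c else 0

/-- the energy without interaction -/
noncomputable def en (e : Fin d → ℝ) (n : Cf Λ d) : ℝ := ∑ i, e (n i)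

/-- the Hamiltonian without interaction -/
noncomputable def NN (e : Fin d → ℝ) : Matrix (Cf Λ d) (Cf Λ d) ℂ :=
  Matrix.diagonal fun n => ((en e n : ℝ) : ℂ)

/-- a bounded interaction: `V j` acts on `X j`, the rows are at most `v`, at most `r` sites in each
`X j`, at most `r` of the `X j` contain a given site -/
structure Inter {J : Type} [Fintype J] (X : J → Finset Λ)
    (V : J → Matrix (Cf Λ d) (Cf Λ d) ℂ) (r : ℕ) (v : ℝ) : Prop where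
  one_le : 1 ≤ r
  loc : ∀ j, LocOp (X j) (V j)
  bd : ∀ j, RB (V j) v
  card : ∀ j, #(X j) ≤ r
  mult : ∀ i : Λ, #(univ.filter fun j => i ∈ X j) ≤ r
  nn : 0 ≤ v

/-- the row of the vacuum of `∑_j exp(A) V_j exp(-A)` -/
noncomputable def G {J : Type} [Fintype J] (V : J → Matrix (Cf Λ d) (Cf Λ d) ℂ)
    (A : Cf Λ d → ℂ) : Cf Λ d → ℂ := fun c => ∑ j, Th A (V j) vac c

/-- `W = T - E - NN` is small: the row `n` has norm at most `en e n / 2` -/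
def Rel (e : Fin d → ℝ) (T : Matrix (Cf Λ d) (Cf Λ d) ℂ) (E : ℂ) : Prop :=
  ∀ n, ∑ n', ‖T n n' - NN e n n' - (if n = n' then E else 0)‖ ≤ en e n / 2

end defs

/-! ### algebra -/

def S_MAT : Prop := ∀ (Λ : Type) [Fintype Λ] [DecidableEq Λ] (d : ℕ) [NeZero d]
  (A B : Cf Λ d → ℂ), mat A * mat B = mat B * mat A ∧ mat (A + B) = mat A + mat B ∧
    mat (-A) = -mat A ∧ (∀ c, mat A vac c = A c) ∧ RB (mat A) (∑ c, ‖A c‖)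

def S_LOC : Prop := ∀ (Λ : Type) [Fintype Λ] [DecidableEq Λ] (d : ℕ) [NeZero d]
  (X : Finset Λ) (M : Matrix (Cf Λ d) (Cf Λ d) ℂ), LocOp X M → ∀ A : Cf Λ d → ℂ,
    (∀ c, A c ≠ 0 → ∀ i ∈ X, c i = 0) → mat A * M = M * mat A

def S_PMP : Prop := ∀ (Λ : Type) [Fintype Λ] [DecidableEq Λ] (d : ℕ) [NeZero d]
  (i : Λ) (M : Matrix (Cf Λ d) (Cf Λ d) ℂ), (∀ n n', M n n' ≠ 0 → n i = n' i) →
  ∀ A B : Cf Λ d → ℂ, mat (pt i A) * M * mat (pt i B) = 0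

def S_RBA : Prop := ∀ (Λ : Type) [Fintype Λ] [DecidableEq Λ] (d : ℕ) [NeZero d]
  (M N : Matrix (Cf Λ d) (Cf Λ d) ℂ) (a b : ℝ), RB M a → RB N b →
    RB (M + N) (a + b) ∧ RB (M - N) (a + b) ∧ RB (M * N) (a * b) ∧
    (∀ n, ∑ n', ‖(M * N) n n'‖ ≤ (∑ n', ‖M n n'‖) * b) ∧ 0 ≤ a ∧
    RB (1 : Matrix (Cf Λ d) (Cf Λ d) ℂ) 1

/-- bounds for the exponential -/
def S_EXB : Prop := ∀ (Λ : Type) [Fintype Λ] [DecidableEq Λ] (d : ℕ) [NeZero d]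
  (M : Matrix (Cf Λ d) (Cf Λ d) ℂ) (y : ℝ), RB M y →
    RB (NormedSpace.exp M) (Real.exp y) ∧ RB (NormedSpace.exp M - 1) (Real.exp y - 1)

def S_CNJ : Prop := ∀ (Λ : Type) [Fintype Λ] [DecidableEq Λ] (d : ℕ) [NeZero d]
  (Y K Z : Matrix (Cf Λ d) (Cf Λ d) ℂ), Y * K - K * Y = Z → Y * Z = Z * Y →
    NormedSpace.exp Y * K * NormedSpace.exp (-Y) = K + Z

/-- from `S_MAT` -/
def S_EXA : Prop := ∀ (Λ : Type) [Fintype Λ] [DecidableEq Λ] (d : ℕ) [NeZero d]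
  (A B : Cf Λ d → ℂ), Ex (A + B) = Ex A * Ex B ∧ Ex A * Ex (-A) = 1 ∧ Ex (-A) * Ex A = 1 ∧
    Ex A * mat B = mat B * Ex A ∧ Ex (0 : Cf Λ d → ℂ) = 1

/-- from `S_MAT`, `S_RBA`, `S_EXB`, `S_EXA` -/
def S_THB : Prop := ∀ (Λ : Type) [Fintype Λ] [DecidableEq Λ] (d : ℕ) [NeZero d]
  (A : Cf Λ d → ℂ) (M : Matrix (Cf Λ d) (Cf Λ d) ℂ) (y v : ℝ), ∑ c, ‖A c‖ ≤ y → RB M v →
    RB (Th A M) (Real.exp (2 * y) * v) ∧ RB (Th A M - M) ((Real.exp (2 * y) - 1) * v)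

/-- from `S_MAT`, `S_LOC`, `S_EXA`: only the terms which meet `X` matter -/
def S_RED : Prop := ∀ (Λ : Type) [Fintype Λ] [DecidableEq Λ] (d : ℕ) [NeZero d]
  (X : Finset Λ) (M : Matrix (Cf Λ d) (Cf Λ d) ℂ), LocOp X M → ∀ A : Cf Λ d → ℂ,
    Th A M = Th (res X A) M

/-- sums over the coefficients -/
def S_RSB : Prop := ∀ (Λ : Type) [Fintype Λ] [DecidableEq Λ] (d : ℕ) [NeZero d]
  (A : Cf Λ d → ℂ) (b : ℝ), Sz A b →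
    (∀ X : Finset Λ, ∑ c, ‖res X A c‖ ≤ #X * b) ∧ ∑ c, ‖A c‖ ≤ Fintype.card Λ * b ∧
    ∀ (J : Type) [Fintype J] (X : J → Finset Λ) (r : ℕ),
      (∀ i : Λ, #(univ.filter fun j => i ∈ X j) ≤ r) →
      ∀ i : Λ, ∑ j, ∑ c, ‖pt i (res (X j) A) c‖ ≤ r * b

/-- from `S_MAT`, `S_PMP`, `S_EXA`: the entries of the row of the vacuum which occupy `i ∉ X` -/
def S_ROW : Prop := ∀ (Λ : Type) [Fintype Λ] [DecidableEq Λ] (d : ℕ) [NeZero d]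
  (i : Λ) (M : Matrix (Cf Λ d) (Cf Λ d) ℂ), (∀ n n', M n n' ≠ 0 → n i = n' i) →
  ∀ (A : Cf Λ d → ℂ) (c : Cf Λ d), c i ≠ 0 →
    Th A M vac c = Th (np i A) (mat (pt i A) * M - M * mat (pt i A)) vac c

/-- from `S_EXA`, `S_THB`, `S_RBA` -/
def S_LIN : Prop := ∀ (Λ : Type) [Fintype Λ] [DecidableEq Λ] (d : ℕ) [NeZero d]
  (M : Matrix (Cf Λ d) (Cf Λ d) ℂ) (v : ℝ), RB M v → ∀ (A B : Cf Λ d → ℂ) (δ : ℝ),
    ∑ c, ‖B c‖ ≤ 1 / 2 → ∑ c, ‖A c - B c‖ ≤ δ → δ ≤ 1 →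
    ∑ c, ‖Th A M vac c - Th B M vac c‖ ≤ 20 * v * δ

/-- from `S_MAT`, `S_RBA`, `S_EXA`, `S_THB`, `S_ROW` -/
def S_LIP : Prop := ∀ (Λ : Type) [Fintype Λ] [DecidableEq Λ] (d : ℕ) [NeZero d]
  (i : Λ) (M : Matrix (Cf Λ d) (Cf Λ d) ℂ) (v : ℝ), (∀ n n', M n n' ≠ 0 → n i = n' i) → RB M v →
  ∀ (A B : Cf Λ d → ℂ) (δ : ℝ), ∑ c, ‖A c‖ ≤ 1 / 2 → ∑ c, ‖B c‖ ≤ 1 / 2 →
    ∑ c, ‖A c - B c‖ ≤ δ → δ ≤ 1 →
    ∑ c ∈ univ.filter (fun c : Cf Λ d => c i ≠ 0), ‖Th A M vac c - Th B M vac c‖ ≤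
      6 * v * ∑ c, ‖pt i (A - B) c‖ + 40 * v * δ * ∑ c, ‖pt i B c‖

/-- from `S_RED`, `S_RSB`, `S_LIN`, `S_LIP`, `S_EXA` -/
def S_EST : Prop := ∀ (Λ : Type) [Fintype Λ] [DecidableEq Λ] (d : ℕ) [NeZero d]
  (J : Type) [Fintype J] (X : J → Finset Λ) (V : J → Matrix (Cf Λ d) (Cf Λ d) ℂ) (r : ℕ) (v : ℝ),
  Inter X V r v → ∀ i : Λ,
    (∑ c ∈ univ.filter (fun c : Cf Λ d => c i ≠ 0), ‖G V 0 c‖ ≤ r * v) ∧
    ∀ (A B : Cf Λ d → ℂ) (δ : ℝ), Sz A (1 / (2 * r)) → Sz B (1 / (2 * r)) → Sz (A - B) δ →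
      ∑ c ∈ univ.filter (fun c : Cf Λ d => c i ≠ 0), ‖G V A c - G V B c‖ ≤ 50 * r ^ 2 * v * δ

/-- from `S_EST`, `S_RSB`: the fixed point -/
def S_FIX : Prop := ∀ (Λ : Type) [Fintype Λ] [DecidableEq Λ] (d : ℕ) [NeZero d]
  (J : Type) [Fintype J] (X : J → Finset Λ) (V : J → Matrix (Cf Λ d) (Cf Λ d) ℂ) (r : ℕ) (v : ℝ),
  Inter X V r v → ∀ (e : Fin d → ℝ) (g : ℝ), 0 < g → e 0 = 0 → (∀ α, α ≠ 0 → g ≤ e α) →
  v ≤ g / (100 * r ^ 2) →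
  ∃ A : Cf Λ d → ℂ, Sz A (1 / (2 * r)) ∧ ∀ c, c ≠ vac → (en e c : ℂ) * A c = -G V A c

/-- from `S_MAT`, `S_CNJ`: the part without interaction -/
def S_NNA : Prop := ∀ (Λ : Type) [Fintype Λ] [DecidableEq Λ] (d : ℕ) [NeZero d]
  (e : Fin d → ℝ), e 0 = 0 → ∀ A : Cf Λ d → ℂ,
    mat A * NN e - NN e * mat A = mat (fun c => (en e c : ℂ) * A c) ∧
    Th A (NN e) = NN e + mat (fun c => (en e c : ℂ) * A c)

/-- from `S_MAT`, `S_RBA`, `S_LOC`, `S_EXA`, `S_THB`, `S_RED`, `S_RSB`, `S_NNA` -/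
def S_REL : Prop := ∀ (Λ : Type) [Fintype Λ] [DecidableEq Λ] (d : ℕ) [NeZero d]
  (J : Type) [Fintype J] (X : J → Finset Λ) (V : J → Matrix (Cf Λ d) (Cf Λ d) ℂ) (r : ℕ) (v : ℝ),
  Inter X V r v → ∀ (e : Fin d → ℝ) (g : ℝ), 0 < g → e 0 = 0 → (∀ α, α ≠ 0 → g ≤ e α) →
  v ≤ g / (100 * r ^ 2) →
  ∀ A : Cf Λ d → ℂ, Sz A (1 / (2 * r)) → (∀ c, c ≠ vac → (en e c : ℂ) * A c = -G V A c) →
    Rel e (Th A (NN e + ∑ j, V j)) (G V A vac)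

/-! ### the spectrum -/

def S_SPE : Prop := ∀ (Λ : Type) [Fintype Λ] [DecidableEq Λ] (d : ℕ) [NeZero d]
  (H S S' : Matrix (Cf Λ d) (Cf Λ d) ℂ) (E : ℂ) (e : Fin d → ℝ) (g : ℝ), H.IsHermitian →
  S * S' = 1 → S' * S = 1 → 0 < g → e 0 = 0 → (∀ α, α ≠ 0 → g ≤ e α) → Rel e (S * H * S') E →
    E.im = 0 ∧ S vac ≠ 0 ∧ S vac ᵥ* H = E • S vac ∧
    (∀ w : Cf Λ d → ℂ, w ᵥ* H = E • w → ∃ c : ℂ, w = c • S vac) ∧
    ∀ (z : ℝ) (w : Cf Λ d → ℂ), w ≠ 0 → w ᵥ* H = (z : ℂ) • w → z = E.re ∨ E.re + g / 2 ≤ z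

/-- the number of eigenvalues up to `E + m` -/
def S_CNT : Prop := ∀ (Λ : Type) [Fintype Λ] [DecidableEq Λ] (d : ℕ) [NeZero d]
  (H S S' : Matrix (Cf Λ d) (Cf Λ d) ℂ) (E : ℝ) (e : Fin d → ℝ) (hH : H.IsHermitian) (s s' : ℝ)
  (J m : ℕ), S * S' = 1 → S' * S = 1 → e 0 = 0 → (∀ α, 0 ≤ e α) → Rel e (S * H * S') (E : ℂ) →
  (∀ j, E ≤ hH.eigenvalues j) → RB S s → RB S' s' →
  s * s' * Real.sqrt (Fintype.card (Cf Λ d)) < 2 ^ J →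
  #(univ.filter fun j => hH.eigenvalues j ≤ E + m) ≤
    J * #(univ.filter fun n : Cf Λ d => en e n < 4 * ((m : ℝ) + 1))

def S_CTC : Prop := ∀ (Λ : Type) [Fintype Λ] [DecidableEq Λ] (d : ℕ) [NeZero d] (k : ℕ),
  #(univ.filter fun n : Cf Λ d => #(occ n) ≤ k) ≤ (1 + Fintype.card Λ * d) ^ k

def S_NUM : Prop := ∀ (d : ℕ) (g : ℝ), 0 < g → ∃ C : ℝ, ∀ L m : ℕ, 2 ≤ L →
  (((4 + 4 * d) * L ^ 2 : ℕ) : ℝ) * ((1 + L ^ 2 * d : ℕ) : ℝ) ^ ⌊4 * ((m : ℝ) + 1) / g⌋₊ ≤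
    Real.exp (C * (m + 1) * Real.log L)

end Pool.Agent.K6.H5.CC
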