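import Pool.Agent.K6.H5.CC.Stm

/-! Piece THB. -/

set_option autoImplicit false

open Finset Matrix

namespace Pool.Agent.K6.H5.CC

theorem THB.rb_mono {Λ : Type} [Fintype Λ] [DecidableEq Λ] {d : ℕ} [NeZero d]
    {M : Matrix (Cf Λ d) (Cf Λ d) ℂ} {a b : ℝ} (h : RB M a) (hab : a ≤ b) : RB M b :=
  fun n => (h n).trans hab

theorem t_THB (h1 : S_MAT) (h2 : S_RBA) (h3 : S_EXB) (_h4 : S_EXA) : S_THB := by
  intro Λ _ _ d _ A M y v hy hM
  have b1 : RB (mat A) y := THB.rb_mono ((h1 Λ d A A).2.2.2.2) hy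
  have b2 : RB (mat (-A)) y := by
    refine THB.rb_mono ((h1 Λ d (-A) A).2.2.2.2) ?_
    simpa using hy
  have c1 : RB (Ex A) (Real.exp y) := (h3 Λ d _ y b1).1
  have c2 : RB (Ex (-A)) (Real.exp y) := (h3 Λ d _ y b2).1
  have c3 : RB (Ex A - 1) (Real.exp y - 1) := (h3 Λ d _ y b1).2
  have c4 : RB (Ex (-A) - 1) (Real.exp y - 1) := (h3 Λ d _ y b2).2
  have e2 : Real.exp (2 * y) = Real.exp y * Real.exp y := by rw [two_mul, Real.exp_add]
  have mul : ∀ {P Q : Matrix (Cf Λ d) (Cf Λ d) ℂ} {a b : ℝ}, RB P a → RB Q b →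
      RB (P * Q) (a * b) := fun hP hQ => (h2 Λ d _ _ _ _ hP hQ).2.2.1
  constructor
  · unfold Th
    refine THB.rb_mono (mul (mul c1 hM) c2) (le_of_eq ?_)
    rw [e2]
    ring
  · have h5 : Th A M - M = (Ex A - 1) * M * Ex (-A) + M * (Ex (-A) - 1) := by
      unfold Th
      noncomm_ring
    rw [h5]
    refine THB.rb_mono ((h2 Λ d _ _ _ _ (mul (mul c3 hM) c2) (mul hM c4)).1) (le_of_eq ?_)
    rw [e2]
    ring

end Pool.Agent.K6.H5.CC
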