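import Pool.Agent.K6.H5.CC.StmT

/-! # Piece TOR (seat helper7) -/

set_option autoImplicit false
set_option linter.unusedSectionVars false

open Finset Matrix Pool.Agent.TH235.PP

namespace Pool.Agent.K6.H5.CC

namespace TOR

variable {d R L : ℕ} [NeZero d] [NeZero L]

theorem mem_box {u v : Site L} : v ∈ box R u ↔ ∃ x : Fin R × Fin R, sh u x = v := by
  unfold box
  rw [Finset.mem_image]
  simp only [Finset.mem_univ, true_and]

theorem not_mem_box {u v : Site L} : v ∉ box R u ↔ ∀ x : Fin R × Fin R, sh u x ≠ v := by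
  rw [mem_box]
  push Not
  rfl

theorem term_add (A B : BoxOp d R) (u : Site L) :
    term (A + B) u = term A u + term B u := by
  classical
  funext s t
  rw [Matrix.add_apply]
  unfold term
  split_ifs
  · rfl
  · rw [add_zero]

theorem sh_zero (hR : 0 < R) (u : Site L) : sh u (⟨0, hR⟩, ⟨0, hR⟩) = u := by
  unfold sh
  simp

theorem term_onsite (hR : 0 < R) (e : Fin d → ℝ) (u : Site L) (s t : Site L → Fin d) :
    term (onsite hR e) u s t = if s = t then ((e (s u) : ℝ) : ℂ) else 0 := by
  classical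
  unfold term onsite
  by_cases hst : s = t
  · subst hst
    rw [if_pos (fun _ _ => rfl), if_pos rfl, if_pos rfl]
    show ((e (s (sh u (⟨0, hR⟩, ⟨0, hR⟩))) : ℝ) : ℂ) = _
    rw [sh_zero]
  · rw [if_neg hst]
    split_ifs with h1 h2
    · exfalso
      apply hst
      funext v
      by_cases hv : ∃ x : Fin R × Fin R, sh u x = v
      · obtain ⟨x, rfl⟩ := hv
        exact congrFun h2 x
      · exact h1 v (fun x hx => hv ⟨x, hx⟩)
    · rfl
    · rfl

theorem ham_eq (hR : 0 < R) (e : Fin d → ℝ) (V : BoxOp d R) :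
    ham (onsite hR e + V) L = NN e + ∑ u : Site L, term V u := by
  classical
  unfold ham
  simp only [term_add]
  rw [Finset.sum_add_distrib]
  congr 1
  funext s t
  rw [Matrix.sum_apply]
  simp only [term_onsite]
  unfold NN en
  rw [Matrix.diagonal_apply]
  by_cases h : s = t
  · simp only [if_pos h]
    push_cast
    rfl
  · simp only [if_neg h]
    exact Finset.sum_const_zero

theorem locOp (V : BoxOp d R) (u : Site L) : LocOp (box R u) (term V u) where
  off := by
    classical
    intro n n' h i hi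
    by_contra hne
    apply h
    unfold term
    rw [if_neg]
    intro hh
    exact hne (hh i (not_mem_box.1 hi))
  inv := by
    classical
    intro n n' m m' h1 h2 h3
    unfold term
    have c1 : ∀ v, (∀ x : Fin R × Fin R, sh u x ≠ v) → n v = n' v := fun v hv =>
      h2 v (not_mem_box.2 hv)
    have c2 : ∀ v, (∀ x : Fin R × Fin R, sh u x ≠ v) → m v = m' v := fun v hv =>
      h3 v (not_mem_box.2 hv)
    rw [if_pos c1, if_pos c2]
    congr 1
    · funext x
      exact (h1 _ (mem_box.2 ⟨x, rfl⟩)).1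
    · funext x
      exact (h1 _ (mem_box.2 ⟨x, rfl⟩)).2

theorem rb (V : BoxOp d R) (v : ℝ) (hV : ∀ p, ∑ q, ‖V p q‖ ≤ v) (u : Site L) :
    RB (term V u : Matrix (Cf (Site L) d) (Cf (Site L) d) ℂ) v := by
  classical
  intro n
  set T : Finset (Cf (Site L) d) := univ.filter fun n' =>
    ∀ w, (∀ x : Fin R × Fin R, sh u x ≠ w) → n w = n' w with hT
  have h1 : ∑ n', ‖term V u n n'‖ =
      ∑ n' ∈ T, ‖V (fun x => n (sh u x)) (fun x => n' (sh u x))‖ := by
    rw [hT, Finset.sum_filter]
    refine Finset.sum_congr rfl fun n' _ => ?_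
    unfold term
    split_ifs
    · rfl
    · exact norm_zero
  rw [h1]
  have hinj : Set.InjOn (fun (n' : Cf (Site L) d) (x : Fin R × Fin R) => n' (sh u x)) T := by
    intro a ha b hb hab
    rw [hT, Finset.mem_coe, Finset.mem_filter] at ha hb
    funext w
    by_cases hw : ∃ x : Fin R × Fin R, sh u x = w
    · obtain ⟨x, rfl⟩ := hw
      exact congrFun hab x
    · have hw' : ∀ x : Fin R × Fin R, sh u x ≠ w := fun x hx => hw ⟨x, hx⟩
      rw [← ha.2 w hw', ← hb.2 w hw']
  have h2 : ∑ n' ∈ T, ‖V (fun x => n (sh u x)) (fun x => n' (sh u x))‖ =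
      ∑ q ∈ T.image (fun (n' : Cf (Site L) d) (x : Fin R × Fin R) => n' (sh u x)),
        ‖V (fun x => n (sh u x)) q‖ := by
    rw [Finset.sum_image hinj]
  rw [h2]
  refine le_trans ?_ (hV (fun x => n (sh u x)))
  exact Finset.sum_le_sum_of_subset_of_nonneg (Finset.subset_univ _)
    (fun q _ _ => norm_nonneg _)

theorem card_box (u : Site L) : #(box R u) ≤ R ^ 2 := by
  unfold box
  refine Finset.card_image_le.trans ?_
  rw [Finset.card_univ, Fintype.card_prod, Fintype.card_fin, sq]

theorem mult_box (v : Site L) : #(univ.filter fun u : Site L => v ∈ box R u) ≤ R ^ 2 := by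
  classical
  have hsub : (univ.filter fun u : Site L => v ∈ box R u) ⊆
      (univ : Finset (Fin R × Fin R)).image fun x =>
        ((v.1 - ((x.1 : ℕ) : ZMod L), v.2 - ((x.2 : ℕ) : ZMod L)) : Site L) := by
    intro u hu
    rw [Finset.mem_filter, mem_box] at hu
    obtain ⟨x, hx⟩ := hu.2
    rw [Finset.mem_image]
    refine ⟨x, Finset.mem_univ _, ?_⟩
    rw [← hx]
    unfold sh
    simp
  refine (Finset.card_le_card hsub).trans (Finset.card_image_le.trans ?_)
  rw [Finset.card_univ, Fintype.card_prod, Fintype.card_fin, sq]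

end TOR

/-- piece TOR -/
theorem t_TOR : S_TOR := by
  intro d R L _ _ hR e V v hV
  refine ⟨TOR.ham_eq hR e V, ?_, ?_, ?_, ?_, ?_, ?_⟩
  · exact Nat.one_le_pow _ _ hR
  · exact fun u => TOR.locOp V u
  · exact fun u => TOR.rb V v hV u
  · exact fun u => TOR.card_box u
  · exact fun i => TOR.mult_box i
  · exact (Finset.sum_nonneg fun q _ => norm_nonneg _).trans (hV fun _ => 0)

end Pool.Agent.K6.H5.CC
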